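import Mathlib

/-!
# Polytopal joins `G + K_n`: definitions
-/

set_option autoImplicit false

namespace Pool.Agent.W4helper48.JN

open Set

/-- `P` is a convex polytope of dimension `d` in `ℝ^d` and `H` is its graph: `P` is the convex hull
of a finite set and has interior points, `p` maps the vertices of `H` bijectively onto the
vertices (extreme points) of `P`, and two vertices of `H` are adjacent exactly when they are
distinct and the segment joining their images is a face (exposed subset) of `P`. -/
def IsGraphOf (d : ℕ) {U : Type} (H : SimpleGraph U) (P : Set (EuclideanSpace ℝ (Fin d)))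
    (p : U → EuclideanSpace ℝ (Fin d)) : Prop :=
  (∃ S : Finset (EuclideanSpace ℝ (Fin d)), P = convexHull ℝ (S : Set _)) ∧
  (interior P).Nonempty ∧ Function.Injective p ∧ range p = P.extremePoints ℝ ∧
  ∀ u v, H.Adj u v ↔ u ≠ v ∧ IsExposed ℝ P (segment ℝ (p u) (p v))

/-- `H` is isomorphic to the graph of some `d`-polytope. -/
def IsPolytopal (d : ℕ) {U : Type} (H : SimpleGraph U) : Prop :=
  ∃ P p, IsGraphOf d H P p

/-- The join `G + K_n` on the vertex set `V ⊕ Fin n`: two distinct vertices are adjacent unless
both lie in `V` and are not adjacent in `G`. -/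
def joinComplete {V : Type} (G : SimpleGraph V) (n : ℕ) : SimpleGraph (V ⊕ Fin n) where
  Adj x y := x ≠ y ∧ ∀ u v, x = Sum.inl u → y = Sum.inl v → G.Adj u v
  symm := ⟨fun _ _ h => ⟨h.1.symm, fun u v hx hy => (h.2 v u hy hx).symm⟩⟩
  loopless := ⟨fun _ h => h.1 rfl⟩

/-- `d(G)`: the least `d` such that `G + K_n` is `d`-polytopal for some `n ≥ 1`. -/
noncomputable def dJoin {V : Type} (G : SimpleGraph V) : ℕ :=
  sInf {d | ∃ n ≥ 1, IsPolytopal d (joinComplete G n)}

/-- `G` is a path: its vertices can be numbered such that exactly the consecutive ones are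
adjacent. -/
def IsPathGraph {V : Type} (G : SimpleGraph V) : Prop :=
  ∃ (N : ℕ) (e : V ≃ Fin N), ∀ u v, G.Adj u v ↔
    (e u).val + 1 = (e v).val ∨ (e v).val + 1 = (e u).val

/-- `G` is a 2-connected outerplanar graph: it has at least three vertices, and they can be
numbered such that cyclically consecutive vertices are adjacent and no two edges cross. -/
def IsOuterHam {V : Type} (G : SimpleGraph V) : Prop :=
  ∃ (N : ℕ) (e : V ≃ Fin N), 3 ≤ N ∧
    (∀ u v, (e u).val + 1 = (e v).val → G.Adj u v) ∧
    (∀ u v, (e u).val = 0 → (e v).val + 1 = N → G.Adj u v) ∧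
    ∀ a b c d, e a < e b → e b < e c → e c < e d → G.Adj a c → G.Adj b d → False

end Pool.Agent.W4helper48.JN
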