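import Mathlib

/-!
# Points in general position on given lines
-/

set_option autoImplicit false

namespace Pool.Agent.W4helper48.JN

open Finset

variable {A T : Type}

/-- twice the signed area of a triangle -/
def dt (p q r : ℝ × ℝ) : ℝ := (q.1 - p.1) * (r.2 - p.2) - (r.1 - p.1) * (q.2 - p.2)

/-- the index -/
def tt (k : T ⊕ T) : T := Sum.elim id id k

/-- The given points `a x`, and two points on each of the lines through `a (i t)` and `a (j t)`. -/
def bp (a : A → ℝ × ℝ) (i j : T → A) (s : T ⊕ T → ℝ) : A ⊕ (T ⊕ T) → ℝ × ℝ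
  | Sum.inl x => a x
  | Sum.inr k => ((1 - s k) * (a (i (tt k))).1 + s k * (a (j (tt k))).1,
      (1 - s k) * (a (i (tt k))).2 + s k * (a (j (tt k))).2)

/-- the four points on a line -/
def InQ (i j : T → A) (t : T) (u : A ⊕ (T ⊕ T)) : Prop :=
  u = Sum.inl (i t) ∨ u = Sum.inl (j t) ∨ u = Sum.inr (Sum.inl t) ∨ u = Sum.inr (Sum.inr t)

section sdr

variable [DecidableEq A]

def supp (i j : T → A) : A ⊕ (T ⊕ T) → Finset A
  | Sum.inl x => {x}
  | Sum.inr k => {i (tt k), j (tt k)}

theorem sdr (i j : T → A) (hij : ∀ t, i t ≠ j t)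
    (hp : ∀ t t', ({i t, j t} : Finset A) = {i t', j t'} → t = t')
    (tr : Fin 3 → A ⊕ (T ⊕ T)) (hinj : Function.Injective tr)
    (hQ : ¬ ∃ t, ∀ n, InQ i j t (tr n)) :
    ∃ f : Fin 3 → A, Function.Injective f ∧ ∀ n, f n ∈ supp i j (tr n) := by
  rw [← Finset.all_card_le_biUnion_card_iff_exists_injective]
  intro s
  have hc2 : ∀ k : T ⊕ T, (supp i j (Sum.inr k)).card = 2 := fun k => by
    simp only [supp]
    exact Finset.card_pair (hij _)
  have hc1 : ∀ u, 1 ≤ (supp i j u).card := by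
    rintro (a | k)
    · simp [supp]
    · rw [hc2]; norm_num
  have hsub : ∀ n ∈ s, supp i j (tr n) ⊆ s.biUnion fun n => supp i j (tr n) :=
    fun n hn => Finset.subset_biUnion_of_mem (fun n => supp i j (tr n)) hn
  have hs3 : s.card ≤ 3 := by
    have := Finset.card_le_univ s
    simpa using this
  by_contra hlt
  push Not at hlt
  set B := s.biUnion fun n => supp i j (tr n) with hB
  have hne : s.Nonempty := by
    rw [Finset.nonempty_iff_ne_empty]
    rintro rfl
    simp at hlt
  obtain ⟨n0, hn0⟩ := hne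
  have h1 : 1 ≤ B.card := (hc1 (tr n0)).trans (Finset.card_le_card (hsub n0 hn0))
  by_cases hall : ∃ n ∈ s, ∃ k, tr n = Sum.inr k
  · obtain ⟨n, hn, k, hk⟩ := hall
    have h2 : 2 ≤ B.card := by
      rw [← hc2 k, ← hk]
      exact Finset.card_le_card (hsub n hn)
    have hs : s.card = 3 := by omega
    have hB2 : B.card = 2 := by omega
    have huniv : s = Finset.univ := by
      apply Finset.eq_univ_of_card
      simpa using hs
    have hBk : supp i j (tr n) = B := by
      apply Finset.eq_of_subset_of_card_le (hsub n hn)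
      rw [hk, hc2, hB2]
    apply hQ
    refine ⟨tt k, fun m => ?_⟩
    have hm := hsub m (by rw [huniv]; exact Finset.mem_univ _)
    rw [← hBk, hk] at hm
    rcases h : tr m with a | k'
    · rw [h] at hm
      simp only [supp, Finset.singleton_subset_iff, Finset.mem_insert, Finset.mem_singleton] at hm
      rcases hm with rfl | rfl
      · exact Or.inl rfl
      · exact Or.inr (Or.inl rfl)
    · rw [h] at hm
      have heq : supp i j (Sum.inr k') = supp i j (Sum.inr k) := by
        apply Finset.eq_of_subset_of_card_le hm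
        rw [hc2, hc2]
      have ht := hp _ _ heq
      rcases k' with t' | t'
      · have : t' = tt k := ht
        subst this
        exact Or.inr (Or.inr (Or.inl rfl))
      · have : t' = tt k := ht
        subst this
        exact Or.inr (Or.inr (Or.inr rfl))
  · push Not at hall
    have hA : ∀ n ∈ s, ∃ a, tr n = Sum.inl a := by
      intro n hn
      rcases h : tr n with a | k
      · exact ⟨a, rfl⟩
      · exact absurd h (hall n hn k)
    have : Nonempty A := ⟨(hA n0 hn0).choose⟩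
    choose! g hg using hA
    have hmem : ∀ n ∈ s, g n ∈ B := fun n hn => by
      apply hsub n hn
      rw [hg n hn]
      simp [supp]
    have hle : s.card ≤ B.card := by
      apply Finset.card_le_card_of_injOn g hmem
      intro n hn m hm hnm
      apply hinj
      rw [hg n hn, hg m hm, hnm]
    omega

end sdr

section poly

open MvPolynomial

noncomputable def pc (x : A → ℝ) (i j : T → A) : A ⊕ (T ⊕ T) → MvPolynomial (T ⊕ T) ℝ
  | Sum.inl a => C (x a)
  | Sum.inr k => (1 - X k) * C (x (i (tt k))) + X k * C (x (j (tt k)))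

noncomputable def dp (a : A → ℝ × ℝ) (i j : T → A) (u v w : A ⊕ (T ⊕ T)) :
    MvPolynomial (T ⊕ T) ℝ :=
  (pc (fun x => (a x).1) i j v - pc (fun x => (a x).1) i j u) *
    (pc (fun x => (a x).2) i j w - pc (fun x => (a x).2) i j u) -
  (pc (fun x => (a x).1) i j w - pc (fun x => (a x).1) i j u) *
    (pc (fun x => (a x).2) i j v - pc (fun x => (a x).2) i j u)

theorem eval_pc1 (a : A → ℝ × ℝ) (i j : T → A) (s : T ⊕ T → ℝ) (u : A ⊕ (T ⊕ T)) :
    eval s (pc (fun x => (a x).1) i j u) = (bp a i j s u).1 := by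
  rcases u with x | k <;> simp [pc, bp]

theorem eval_pc2 (a : A → ℝ × ℝ) (i j : T → A) (s : T ⊕ T → ℝ) (u : A ⊕ (T ⊕ T)) :
    eval s (pc (fun x => (a x).2) i j u) = (bp a i j s u).2 := by
  rcases u with x | k <;> simp [pc, bp]

theorem eval_dp (a : A → ℝ × ℝ) (i j : T → A) (s : T ⊕ T → ℝ) (u v w : A ⊕ (T ⊕ T)) :
    eval s (dp a i j u v w) = dt (bp a i j s u) (bp a i j s v) (bp a i j s w) := by
  simp only [dp, dt, map_sub, map_mul, eval_pc1, eval_pc2]

theorem dp_ne_zero (a : A → ℝ × ℝ) (i j : T → A) (hij : ∀ t, i t ≠ j t)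
    (hp : ∀ t t', ({i t, j t} : Set A) = {i t', j t'} → t = t')
    (ha : ∀ x y z, x ≠ y → x ≠ z → y ≠ z → dt (a x) (a y) (a z) ≠ 0)
    (u v w : A ⊕ (T ⊕ T)) (huv : u ≠ v) (huw : u ≠ w) (hvw : v ≠ w)
    (hQ : ¬ ∃ t, InQ i j t u ∧ InQ i j t v ∧ InQ i j t w) :
    dp a i j u v w ≠ 0 := by
  classical
  have hp' : ∀ t t', ({i t, j t} : Finset A) = {i t', j t'} → t = t' := by
    intro t t' h
    apply hp
    have := congrArg (fun s : Finset A => (s : Set A)) h
    simpa using this
  let tr : Fin 3 → A ⊕ (T ⊕ T) := ![u, v, w]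
  have hinj : Function.Injective tr := by
    intro n m h
    fin_cases n <;> fin_cases m <;> simp_all [tr]
  obtain ⟨f, hf, hfs⟩ := sdr i j hij hp' tr hinj (by
    rintro ⟨t, ht⟩
    exact hQ ⟨t, ht 0, ht 1, ht 2⟩)
  let s : T ⊕ T → ℝ := fun k => if ∃ n, tr n = Sum.inr k ∧ f n = j (tt k) then 1 else 0
  have key : ∀ n, bp a i j s (tr n) = a (f n) := by
    intro n
    have h1 := hfs n
    rcases h : tr n with x | k
    · rw [h] at h1
      simp only [supp, Finset.mem_singleton] at h1
      simp [bp, h1]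
    · rw [h] at h1
      simp only [supp, Finset.mem_insert, Finset.mem_singleton] at h1
      by_cases hj : f n = j (tt k)
      · have : s k = 1 := if_pos ⟨n, h, hj⟩
        simp [bp, this, hj]
      · have hi : f n = i (tt k) := h1.resolve_right hj
        have : s k = 0 := by
          apply if_neg
          rintro ⟨m, hm, hmj⟩
          have : m = n := hinj (hm.trans h.symm)
          subst this
          exact hj hmj
        simp [bp, this, hi]
  intro h0
  have h1 : dt (bp a i j s u) (bp a i j s v) (bp a i j s w) = 0 := by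
    rw [← eval_dp, h0, map_zero]
  have k0 := key 0
  have k1 := key 1
  have k2 := key 2
  simp only [tr, Matrix.cons_val_zero, Matrix.cons_val_one, Matrix.cons_val] at k0 k1 k2
  rw [k0, k1, k2] at h1
  exact ha _ _ _ (fun h => absurd (hf h) (by decide)) (fun h => absurd (hf h) (by decide))
    (fun h => absurd (hf h) (by decide)) h1

theorem exists_params [Fintype A] [Fintype T] (a : A → ℝ × ℝ) (i j : T → A) (hij : ∀ t, i t ≠ j t)
    (hp : ∀ t t', ({i t, j t} : Set A) = {i t', j t'} → t = t')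
    (ha : ∀ x y z, x ≠ y → x ≠ z → y ≠ z → dt (a x) (a y) (a z) ≠ 0) :
    ∃ s : T ⊕ T → ℝ, (∀ t, 0 < s (Sum.inl t) ∧ s (Sum.inl t) < 1) ∧
      (∀ t, s (Sum.inr t) < 0) ∧
      ∀ u v w, u ≠ v → u ≠ w → v ≠ w → (¬ ∃ t, InQ i j t u ∧ InQ i j t v ∧ InQ i j t w) →
        dt (bp a i j s u) (bp a i j s v) (bp a i j s w) ≠ 0 := by
  classical
  let good : Finset ((A ⊕ (T ⊕ T)) × (A ⊕ (T ⊕ T)) × (A ⊕ (T ⊕ T))) :=
    Finset.univ.filter fun x => x.1 ≠ x.2.1 ∧ x.1 ≠ x.2.2 ∧ x.2.1 ≠ x.2.2 ∧
      ¬ ∃ t, InQ i j t x.1 ∧ InQ i j t x.2.1 ∧ InQ i j t x.2.2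
  let P : MvPolynomial (T ⊕ T) ℝ := ∏ x ∈ good, dp a i j x.1 x.2.1 x.2.2
  have hP : P ≠ 0 := by
    rw [Finset.prod_ne_zero_iff]
    rintro ⟨u, v, w⟩ hx
    simp only [good, Finset.mem_filter, Finset.mem_univ, true_and] at hx
    exact dp_ne_zero a i j hij hp ha u v w hx.1 hx.2.1 hx.2.2.1 hx.2.2.2
  let S : T ⊕ T → Set ℝ := Sum.elim (fun _ => Set.Ioo 0 1) (fun _ => Set.Iio 0)
  have hS : ∀ k, (S k).Infinite := by
    rintro (t | t)
    · exact Set.Ioo_infinite (by norm_num)
    · exact Set.Iio_infinite 0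
  have hex : ∃ s ∈ Set.pi Set.univ S, eval s P ≠ 0 := by
    by_contra hcon
    push Not at hcon
    apply hP
    apply funext_set S hS
    intro x hx
    rw [hcon x hx, map_zero]
  obtain ⟨s, hs, hsP⟩ := hex
  refine ⟨s, fun t => ?_, fun t => ?_, fun u v w h1 h2 h3 h4 => ?_⟩
  · exact hs (Sum.inl t) (Set.mem_univ _)
  · exact hs (Sum.inr t) (Set.mem_univ _)
  · rw [← eval_dp]
    have : eval s P = ∏ x ∈ good, eval s (dp a i j x.1 x.2.1 x.2.2) := map_prod _ _ _
    rw [this, Finset.prod_ne_zero_iff] at hsP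
    exact hsP (u, v, w) (by
      simp only [good, Finset.mem_filter, Finset.mem_univ, true_and]
      exact ⟨h1, h2, h3, h4⟩)

end poly

end Pool.Agent.W4helper48.JN
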