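import Pool.Agent.W4helper48.JN.Stm
import Pool.Agent.W4helper48.JN.GP

/-!
# Dimension five
-/

set_option autoImplicit false

namespace Pool.Agent.W4helper48.JN

open Set Filter Topology

/-- the point of the Veronese surface -/
def ve (b : ℝ × ℝ) : Fin 5 → ℝ := ![b.1, b.2, b.1 ^ 2, b.1 * b.2, b.2 ^ 2]

theorem af_ve (c0 : ℝ) (c : Fin 5 → ℝ) (b : ℝ × ℝ) : af c0 c (ve b) =
    c0 + c 0 * b.1 + c 1 * b.2 + c 2 * b.1 ^ 2 + c 3 * (b.1 * b.2) + c 4 * b.2 ^ 2 := by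
  simp only [af, ve, Fin.sum_univ_five]
  simp only [Matrix.cons_val_zero, Matrix.cons_val_one, Matrix.cons_val]
  ring

/-- quadratic polynomials -/
def IsQ (q : ℝ × ℝ → ℝ) : Prop := ∃ (c0 : ℝ) (c : Fin 5 → ℝ), ∀ b, af c0 c (ve b) = q b

theorem IsQ.add {q r : ℝ × ℝ → ℝ} (hq : IsQ q) (hr : IsQ r) : IsQ fun b => q b + r b := by
  obtain ⟨c0, c, h⟩ := hq
  obtain ⟨d0, d, h'⟩ := hr
  exact ⟨c0 + d0, c + d, fun b => by rw [af_add, h, h']⟩

theorem IsQ.smul {q : ℝ × ℝ → ℝ} (hq : IsQ q) (t : ℝ) : IsQ fun b => t * q b := by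
  obtain ⟨c0, c, h⟩ := hq
  exact ⟨t * c0, t • c, fun b => by rw [af_smul, h]⟩

theorem isQ_const (t : ℝ) : IsQ fun _ => t :=
  ⟨t, 0, fun b => by simp [af]⟩

/-- affine functions on the plane -/
def lf (α β γ : ℝ) (b : ℝ × ℝ) : ℝ := α * b.1 + β * b.2 + γ

theorem isQ_mul (α β γ α' β' γ' : ℝ) : IsQ fun b => lf α β γ b * lf α' β' γ' b := by
  refine ⟨γ * γ', ![α * γ' + γ * α', β * γ' + γ * β', α * α', α * β' + β * α', β * β'], fun b => ?_⟩
  rw [af_ve]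
  simp only [Matrix.cons_val_zero, Matrix.cons_val_one, Matrix.cons_val, lf]
  ring

theorem af_comb {d : ℕ} (c0 : ℝ) (c : Fin d → ℝ) (t : ℝ) (x y : Fin d → ℝ) :
    af c0 c (fun k => (1 + t) * x k - t * y k) = (1 + t) * af c0 c x - t * af c0 c y := by
  simp only [af, mul_sub, Finset.sum_sub_distrib, mul_add, Finset.mul_sum]
  have h1 : ∀ k, c k * ((1 + t) * x k) = (1 + t) * (c k * x k) := fun k => by ring
  have h2 : ∀ k, c k * (t * y k) = t * (c k * y k) := fun k => by ring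
  simp only [h1, h2]
  ring

theorem evp (α β γ δ k : ℝ) (h : 0 < α) :
    ∀ᶠ ε in 𝓝[>] (0 : ℝ), 0 < (1 + k * ε) * (α + ε * β) - k * ε * (γ + ε * δ) := by
  have hc : Tendsto (fun ε : ℝ => (1 + k * ε) * (α + ε * β) - k * ε * (γ + ε * δ)) (𝓝[>] 0)
      (𝓝 ((1 + k * 0) * (α + 0 * β) - k * 0 * (γ + 0 * δ))) := by
    apply Tendsto.mono_left _ nhdsWithin_le_nhds
    apply Continuous.tendsto
    fun_prop
  have hpos : 0 < (1 + k * 0) * (α + 0 * β) - k * 0 * (γ + 0 * δ) := by simpa using h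
  exact hc.eventually (lt_mem_nhds hpos)

section

variable {A T : Type} (a : A → ℝ × ℝ) (i j : T → A) (z : A) (s : T ⊕ T → ℝ)

/-- coefficient: one for the points that are pulled -/
def pl : A ⊕ (T ⊕ T) → ℝ
  | Sum.inr (Sum.inl _) => 1
  | _ => 0

theorem pl_nonneg (u : A ⊕ (T ⊕ T)) : 0 ≤ pl u := by
  rcases u with x | t | t <;> simp [pl]

/-- the vertices -/
def vp (ε : ℝ) (u : A ⊕ (T ⊕ T)) : Fin 5 → ℝ := fun k =>
  (1 + pl u * ε) * ve (bp a i j s u) k - pl u * ε * ve (a z) k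

/-- the value of a polynomial at a vertex -/
def ev (ε : ℝ) (u : A ⊕ (T ⊕ T)) (q : ℝ × ℝ → ℝ) : ℝ :=
  (1 + pl u * ε) * q (bp a i j s u) - pl u * ε * q (a z)

theorem af_vp (ε : ℝ) (u : A ⊕ (T ⊕ T)) (c0 : ℝ) (c : Fin 5 → ℝ) (q : ℝ × ℝ → ℝ)
    (h : ∀ b, af c0 c (ve b) = q b) : af c0 c (vp a i j z s ε u) = ev a i j z s ε u q := by
  unfold vp ev
  rw [af_comb, h, h]

/-- the pair can be exposed -/
def Exp (u v : A ⊕ (T ⊕ T)) : Prop :=
  ∃ q0 q1 : ℝ × ℝ → ℝ, IsQ q0 ∧ IsQ q1 ∧ ∀ᶠ ε in 𝓝[>] (0 : ℝ),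
    ev a i j z s ε u (fun b => q0 b + ε * q1 b) ≤ 0 ∧
    ev a i j z s ε v (fun b => q0 b + ε * q1 b) ≤ 0 ∧
    ∀ w, w ≠ u → w ≠ v → 0 < ev a i j z s ε w (fun b => q0 b + ε * q1 b)

theorem Exp.symm {a : A → ℝ × ℝ} {i j : T → A} {z : A} {s : T ⊕ T → ℝ} {u v : A ⊕ (T ⊕ T)}
    (h : Exp a i j z s u v) : Exp a i j z s v u := by
  obtain ⟨q0, q1, h0, h1, h⟩ := h
  refine ⟨q0, q1, h0, h1, ?_⟩
  filter_upwards [h] with ε hε
  exact ⟨hε.2.1, hε.1, fun w hv hu => hε.2.2 w hu hv⟩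

theorem ev_pos (u : A ⊕ (T ⊕ T)) (q0 q1 : ℝ × ℝ → ℝ) (h : 0 < q0 (bp a i j s u)) :
    ∀ᶠ ε in 𝓝[>] (0 : ℝ), 0 < ev a i j z s ε u (fun b => q0 b + ε * q1 b) := by
  unfold ev
  exact evp _ _ _ _ _ h

/-- the simple case: a nonnegative polynomial that vanishes exactly at the two base points -/
theorem exp_simple [Finite A] [Finite T] (u v : A ⊕ (T ⊕ T)) (q : ℝ × ℝ → ℝ) (hq : IsQ q)
    (hu : q (bp a i j s u) = 0) (hv : q (bp a i j s v) = 0) (hz : 0 ≤ q (a z))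
    (hw : ∀ w, w ≠ u → w ≠ v → 0 < q (bp a i j s w)) : Exp a i j z s u v := by
  refine ⟨q, fun _ => 0, hq, isQ_const 0, ?_⟩
  have h1 : ∀ᶠ ε in 𝓝[>] (0 : ℝ), ∀ w, w ≠ u → w ≠ v →
      0 < ev a i j z s ε w (fun b => q b + ε * (0 : ℝ)) := by
    rw [eventually_all]
    intro w
    by_cases h : w ≠ u ∧ w ≠ v
    · filter_upwards [ev_pos a i j z s w q (fun _ => 0) (hw w h.1 h.2)] with ε hε _ _
      exact hε
    · exact Eventually.of_forall fun ε h1 h2 => absurd ⟨h1, h2⟩ h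
  filter_upwards [h1, self_mem_nhdsWithin] with ε hε hpos
  have hpos' : (0 : ℝ) < ε := hpos
  refine ⟨?_, ?_, hε⟩
  · simp only [ev, hu, mul_zero, add_zero, zero_sub]
    have := pl_nonneg u
    have : 0 ≤ pl u * ε * q (a z) := by positivity
    linarith
  · simp only [ev, hv, mul_zero, add_zero, zero_sub]
    have := pl_nonneg v
    have : 0 ≤ pl v * ε * q (a z) := by positivity
    linarith

/-- the affine function vanishing on the line through two points -/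
def ln (p q : ℝ × ℝ) (b : ℝ × ℝ) : ℝ :=
  lf (-(q.2 - p.2)) (q.1 - p.1) (-(q.1 - p.1) * p.2 + p.1 * (q.2 - p.2)) b

theorem ln_eq (p q b : ℝ × ℝ) : ln p q b = dt p q b := by
  unfold ln lf dt
  ring

theorem isQ_lnsq (p q : ℝ × ℝ) : IsQ fun b => ln p q b * ln p q b := by
  unfold ln
  exact isQ_mul _ _ _ _ _ _

/-- general pairs -/
theorem exp_general [Finite A] [Finite T] (u v : A ⊕ (T ⊕ T))
    (h : ∀ w, w ≠ u → w ≠ v → dt (bp a i j s u) (bp a i j s v) (bp a i j s w) ≠ 0) :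
    Exp a i j z s u v := by
  refine exp_simple a i j z s u v _ (isQ_lnsq (bp a i j s u) (bp a i j s v)) ?_ ?_ ?_ ?_
  · rw [ln_eq]; simp [dt]
  · rw [ln_eq]; simp only [dt]; ring
  · exact mul_self_nonneg _
  · intro w hu hv
    rw [ln_eq]
    exact mul_self_pos.2 (h w hu hv)

/-- point on the line `t` with parameter `σ` -/
def lin (p q : ℝ × ℝ) (σ : ℝ) : ℝ × ℝ := ((1 - σ) * p.1 + σ * q.1, (1 - σ) * p.2 + σ * q.2)

/-- the parameter as an affine function -/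
noncomputable def lam (p q : ℝ × ℝ) (τ : ℝ) (b : ℝ × ℝ) : ℝ :=
  lf ((q.1 - p.1) / ((q.1 - p.1) ^ 2 + (q.2 - p.2) ^ 2))
    ((q.2 - p.2) / ((q.1 - p.1) ^ 2 + (q.2 - p.2) ^ 2))
    (-((q.1 - p.1) * p.1 + (q.2 - p.2) * p.2) / ((q.1 - p.1) ^ 2 + (q.2 - p.2) ^ 2) - τ) b

theorem sq_pos_of_ne {p q : ℝ × ℝ} (h : p ≠ q) : 0 < (q.1 - p.1) ^ 2 + (q.2 - p.2) ^ 2 := by
  by_contra hcon
  push Not at hcon
  have h1 : (q.1 - p.1) ^ 2 = 0 := by nlinarith [sq_nonneg (q.1 - p.1), sq_nonneg (q.2 - p.2)]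
  have h2 : (q.2 - p.2) ^ 2 = 0 := by nlinarith [sq_nonneg (q.1 - p.1), sq_nonneg (q.2 - p.2)]
  apply h
  have h3 := pow_eq_zero_iff (two_ne_zero) |>.1 h1
  have h4 := pow_eq_zero_iff (two_ne_zero) |>.1 h2
  exact Prod.ext (by linarith) (by linarith)

theorem lam_lin {p q : ℝ × ℝ} (h : p ≠ q) (τ σ : ℝ) : lam p q τ (lin p q σ) = σ - τ := by
  have h0 := (sq_pos_of_ne h).ne'
  unfold lam lin lf
  field_simp
  ring

theorem ln_lin (p q : ℝ × ℝ) (σ : ℝ) : ln p q (lin p q σ) = 0 := by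
  unfold ln lin lf
  ring

/-- sides of the quadrilaterals -/
theorem exp_side [Finite A] [Finite T] (t : T) (hne : a (i t) ≠ a (j t)) (u v : A ⊕ (T ⊕ T))
    (σu σv sg : ℝ) (hu : bp a i j s u = lin (a (i t)) (a (j t)) σu)
    (hv : bp a i j s v = lin (a (i t)) (a (j t)) σv)
    (hQ : ∀ w, w ≠ u → w ≠ v → InQ i j t w →
      ∃ σ, bp a i j s w = lin (a (i t)) (a (j t)) σ ∧ 0 < sg * ((σ - σu) * (σ - σv)))
    (hzu : Sum.inl z ≠ u) (hzv : Sum.inl z ≠ v)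
    (hoff : ∀ w, ¬ InQ i j t w → dt (a (i t)) (a (j t)) (bp a i j s w) ≠ 0) :
    Exp a i j z s u v := by
  set p := a (i t)
  set q := a (j t)
  have hδ : ∀ᶠ δ in 𝓝[>] (0 : ℝ), ∀ w, w ≠ u → w ≠ v →
      0 < ln p q (bp a i j s w) * ln p q (bp a i j s w) +
        δ * (sg * (lam p q σu (bp a i j s w) * lam p q σv (bp a i j s w))) := by
    rw [eventually_all]
    intro w
    by_cases h : w ≠ u ∧ w ≠ v
    · by_cases hw : InQ i j t w
      · obtain ⟨σ, hσ, hpos⟩ := hQ w h.1 h.2 hw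
        filter_upwards [self_mem_nhdsWithin] with δ hδ _ _
        rw [hσ, ln_lin, lam_lin hne, lam_lin hne]
        have : (0 : ℝ) < δ := hδ
        have := mul_pos this hpos
        linarith
      · have h1 : 0 < ln p q (bp a i j s w) * ln p q (bp a i j s w) := by
          rw [ln_eq]
          exact mul_self_pos.2 (hoff w hw)
        have h2 := evp _ (sg * (lam p q σu (bp a i j s w) * lam p q σv (bp a i j s w))) 0 0 0 h1
        filter_upwards [h2] with δ hδ _ _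
        linarith
    · exact Eventually.of_forall fun ε h1 h2 => absurd ⟨h1, h2⟩ h
  obtain ⟨δ, hδ, hδ0⟩ := (hδ.and self_mem_nhdsWithin).exists
  have hδ0' : (0 : ℝ) < δ := hδ0
  have hQ' : IsQ fun b => ln p q b * ln p q b + δ * (sg * (lam p q σu b * lam p q σv b)) :=
    (isQ_lnsq p q).add (((isQ_mul _ _ _ _ _ _).smul sg).smul δ)
  refine exp_simple a i j z s u v _ hQ' ?_ ?_ ?_ hδ
  · rw [hu, ln_lin, lam_lin hne]; ring
  · rw [hv, ln_lin, lam_lin hne, lam_lin hne]; ring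
  · exact (hδ (Sum.inl z) hzu hzv).le

/-- the diagonal with a pulled end -/
theorem exp_diag [Finite A] [Finite T] (t : T) (hne : a (i t) ≠ a (j t))
    (h0 : 0 < s (Sum.inl t)) (h1 : s (Sum.inl t) < 1) (h2 : s (Sum.inr t) < 0)
    (hz : z ≠ i t ∧ z ≠ j t)
    (hoff : ∀ w, ¬ InQ i j t w → dt (a (i t)) (a (j t)) (bp a i j s w) ≠ 0) :
    Exp a i j z s (Sum.inr (Sum.inl t)) (Sum.inr (Sum.inr t)) := by
  set p := a (i t)
  set q := a (j t)
  set τ := s (Sum.inl t)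
  set σ := s (Sum.inr t)
  have hzq : ¬ InQ i j t (Sum.inl z) := by
    rintro (h | h | h | h)
    · exact hz.1 (Sum.inl.inj h)
    · exact hz.2 (Sum.inl.inj h)
    · cases h
    · cases h
  have hz1 : 0 < ln p q (a z) * ln p q (a z) := by
    rw [ln_eq]
    exact mul_self_pos.2 (hoff _ hzq)
  have hr : 0 < (τ - σ) * (τ - σ) := by
    apply mul_pos <;> linarith
  set κ := ln p q (a z) * ln p q (a z) / (2 * ((τ - σ) * (τ - σ))) with hκ
  have hκ0 : 0 < κ := by positivity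
  have hκ1 : 2 * (κ * ((τ - σ) * (τ - σ))) = ln p q (a z) * ln p q (a z) := by
    have hts : τ - σ ≠ 0 := by
      have : 0 < τ - σ := by linarith
      exact this.ne'
    rw [hκ]; field_simp
  refine ⟨fun b => ln p q b * ln p q b, fun b => κ * (lam p q σ b * lam p q σ b),
    isQ_lnsq p q, (isQ_mul _ _ _ _ _ _).smul κ, ?_⟩
  have hc : bp a i j s (Sum.inr (Sum.inl t)) = lin p q τ := rfl
  have hc' : bp a i j s (Sum.inr (Sum.inr t)) = lin p q σ := rfl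
  have hw : ∀ᶠ ε in 𝓝[>] (0 : ℝ), ∀ w, w ≠ Sum.inr (Sum.inl t) → w ≠ Sum.inr (Sum.inr t) →
      0 < ev a i j z s ε w
        (fun b => ln p q b * ln p q b + ε * (κ * (lam p q σ b * lam p q σ b))) := by
    rw [eventually_all]
    intro w
    by_cases h : w ≠ Sum.inr (Sum.inl t) ∧ w ≠ Sum.inr (Sum.inr t)
    · by_cases hwQ : InQ i j t w
      · have hplw : pl w = 0 ∧ ∃ ρ, bp a i j s w = lin p q ρ ∧ 0 < (ρ - σ) * (ρ - σ) := by
          rcases hwQ with rfl | rfl | h3 | h3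
          · refine ⟨rfl, 0, ?_, by nlinarith⟩
            simp [bp, lin, p]
          · refine ⟨rfl, 1, ?_, by nlinarith⟩
            simp [bp, lin, q]
          · exact absurd h3 h.1
          · exact absurd h3 h.2
        obtain ⟨hpl, ρ, hρ, hρ0⟩ := hplw
        filter_upwards [self_mem_nhdsWithin] with ε hε _ _
        have hε' : (0 : ℝ) < ε := hε
        simp only [ev, hpl, hρ, ln_lin, lam_lin hne]
        have := mul_pos hε' (mul_pos hκ0 hρ0)
        linarith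
      · have h1 : 0 < ln p q (bp a i j s w) * ln p q (bp a i j s w) := by
          rw [ln_eq]
          exact mul_self_pos.2 (hoff w hwQ)
        filter_upwards [ev_pos a i j z s w (fun b => ln p q b * ln p q b)
          (fun b => κ * (lam p q σ b * lam p q σ b)) h1] with ε hε _ _
        exact hε
    · exact Eventually.of_forall fun ε h1 h2 => absurd ⟨h1, h2⟩ h
  have hlt1 : ∀ᶠ ε in 𝓝[>] (0 : ℝ), ε < 1 :=
    (eventually_lt_nhds (show (0 : ℝ) < 1 by norm_num)).filter_mono nhdsWithin_le_nhds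
  filter_upwards [hw, self_mem_nhdsWithin, hlt1] with ε hε hpos hε1
  have hpos' : (0 : ℝ) < ε := hpos
  refine ⟨?_, ?_, hε⟩
  · simp only [ev, hc, ln_lin, lam_lin hne, pl]
    have h3 : 0 ≤ lam p q σ (a z) * lam p q σ (a z) := mul_self_nonneg _
    have h4 : (1 + 1 * ε) * (0 * 0 + ε * (κ * ((τ - σ) * (τ - σ)))) ≤
        ε * (ln p q (a z) * ln p q (a z)) := by
      rw [← hκ1]
      have h5 : 0 < κ * ((τ - σ) * (τ - σ)) := mul_pos hκ0 hr
      nlinarith [mul_pos hpos' h5]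
    have h6 : 0 ≤ ε * (ε * (κ * (lam p q σ (a z) * lam p q σ (a z)))) := by positivity
    nlinarith
  · simp only [ev, hc', ln_lin, lam_lin hne, pl]
    simp

/-- vertices -/
theorem exp_vertex [Finite A] [Finite T] (u : A ⊕ (T ⊕ T))
    (hinj : ∀ w, w ≠ u → bp a i j s w ≠ bp a i j s u) :
    ∃ q0 q1 : ℝ × ℝ → ℝ, IsQ q0 ∧ IsQ q1 ∧ ∀ᶠ ε in 𝓝[>] (0 : ℝ),
      ev a i j z s ε u (fun b => q0 b + ε * q1 b) = 0 ∧
      ∀ w, w ≠ u → 0 < ev a i j z s ε w (fun b => q0 b + ε * q1 b) := by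
  set c := bp a i j s u with hc
  let q0 : ℝ × ℝ → ℝ := fun b => lf 1 0 (-c.1) b * lf 1 0 (-c.1) b + lf 0 1 (-c.2) b * lf 0 1 (-c.2) b
  have hq0 : ∀ b, q0 b = (b.1 - c.1) ^ 2 + (b.2 - c.2) ^ 2 := by
    intro b
    simp only [q0, lf]
    ring
  refine ⟨q0, fun _ => pl u * q0 (a z), (isQ_mul _ _ _ _ _ _).add (isQ_mul _ _ _ _ _ _),
    isQ_const _, ?_⟩
  have hw : ∀ᶠ ε in 𝓝[>] (0 : ℝ), ∀ w, w ≠ u →
      0 < ev a i j z s ε w (fun b => q0 b + ε * (pl u * q0 (a z))) := by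
    rw [eventually_all]
    intro w
    by_cases h : w ≠ u
    · have h1 : 0 < q0 (bp a i j s w) := by
        rw [hq0]
        exact sq_pos_of_ne (hinj w h).symm
      filter_upwards [ev_pos a i j z s w q0 (fun _ => pl u * q0 (a z)) h1] with ε hε _
      exact hε
    · exact Eventually.of_forall fun ε h1 => absurd h1 h
  filter_upwards [hw] with ε hε
  refine ⟨?_, hε⟩
  have h0 : q0 c = 0 := by rw [hq0]; ring
  simp only [ev, ← hc, h0]
  ring

end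

end Pool.Agent.W4helper48.JN
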