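import Pool.Agent.W4helper48.JN.FiveMain

/-!
# Dimension five: the end
-/

set_option autoImplicit false

namespace Pool.Agent.W4helper48.JN

open Set Polynomial

/-- the join with a finite set of further vertices gives the join with a complete graph -/
theorem to_joinComplete {V W : Type} [Fintype W] [Nonempty W] (G : SimpleGraph V) {d : ℕ}
    (H : SimpleGraph (V ⊕ W))
    (hH : ∀ x y, H.Adj x y ↔ x ≠ y ∧ ∀ u v, x = Sum.inl u → y = Sum.inl v → G.Adj u v)
    (h : IsPolytopal d H) : ∃ n ≥ 1, IsPolytopal d (joinComplete G n) := by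
  refine ⟨Fintype.card W, Fintype.card_pos, ?_⟩
  refine h.of_equiv (Equiv.sumCongr (Equiv.refl V) (Fintype.equivFin W)) fun x y => ?_
  rw [hH]
  change _ ↔ _ ∧ _
  refine and_congr ?_ ?_
  · rw [(Equiv.sumCongr (Equiv.refl V) (Fintype.equivFin W)).injective.ne_iff]
  · constructor
    · intro h u v hu hv
      rcases x with x | x
      · rcases y with y | y
        · simp only [Equiv.sumCongr_apply, Sum.map_inl, Equiv.refl_apply, Sum.inl.injEq] at hu hv
          subst hu
          subst hv
          exact h _ _ rfl rfl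
        · simp at hv
      · simp at hu
    · rintro h u v rfl rfl
      exact h u v (by simp) (by simp)

theorem dt_cubic (x y w : ℝ) : dt (x, x ^ 3) (y, y ^ 3) (w, w ^ 3) =
    (y - x) * (w - x) * (w - y) * (w + y + x) := by
  simp only [dt]
  ring

theorem span_cubic {A : Type} [Fintype A] (hA : 7 ≤ Fintype.card A) (f : A → ℝ)
    (hf : Function.Injective f) (c0 : ℝ) (c : Fin 5 → ℝ)
    (h : ∀ x, af c0 c (ve (f x, f x ^ 3)) = 0) : c = 0 := by
  let P : ℝ[X] := C c0 + C (c 0) * X + C (c 1) * X ^ 3 + C (c 2) * X ^ 2 + C (c 3) * X ^ 4 +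
    C (c 4) * X ^ 6
  have hdeg : P.natDegree ≤ 6 := by
    simp only [P]
    compute_degree
  have hP : P = 0 := by
    refine Polynomial.eq_zero_of_natDegree_lt_card_of_eval_eq_zero P hf (fun x => ?_) (by omega)
    have := h x
    rw [af_ve] at this
    simp only [P, eval_add, eval_mul, eval_C, eval_X, eval_pow]
    simp only at this
    linear_combination this
  have hcoef : ∀ n, P.coeff n = 0 := fun n => by rw [hP, coeff_zero]
  have c1 := hcoef 1
  have c3 := hcoef 3
  have c2 := hcoef 2
  have c4 := hcoef 4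
  have c6 := hcoef 6
  simp [P, coeff_X, coeff_C] at c1 c2 c3 c4 c6
  funext k
  fin_cases k
  · exact c1
  · exact c3
  · exact c2
  · exact c4
  · exact c6

theorem p_five : FiveStm := by
  intro V _ G
  classical
  let e := Fintype.equivFin V
  let T := {t : V × V // e t.1 < e t.2 ∧ ¬ G.Adj t.1 t.2}
  let A := V ⊕ Fin 7
  let eA := Fintype.equivFin A
  let f : A → ℝ := fun x => (eA x).val + 1
  have hf0 : ∀ x, 0 < f x := fun x => by simp only [f]; positivity
  have hf : Function.Injective f := by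
    intro x y hxy
    simp only [f, add_left_inj, Nat.cast_inj] at hxy
    exact eA.injective (Fin.ext hxy)
  let a : A → ℝ × ℝ := fun x => (f x, f x ^ 3)
  let i : T → A := fun t => Sum.inl t.1.1
  let j : T → A := fun t => Sum.inl t.1.2
  let H : SimpleGraph (A ⊕ (T ⊕ T)) :=
    { Adj := fun x y => x ≠ y ∧ ∀ u v, x = Sum.inl (Sum.inl u) → y = Sum.inl (Sum.inl v) →
        G.Adj u v
      symm := ⟨fun _ _ h => ⟨h.1.symm, fun u v hx hy => (h.2 v u hy hx).symm⟩⟩
      loopless := ⟨fun _ h => h.1 rfl⟩ }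
  have main : IsPolytopal 5 H := by
    refine five_main a i j ?_ ?_ ?_ (Sum.inr 0) (Sum.inr 1) (Sum.inr 2) ?_ ?_ ?_ ?_ ?_ H ?_ ?_
    · intro t h
      have h1 : t.1.1 = t.1.2 := Sum.inl.inj h
      have h2 := t.2.1
      rw [h1] at h2
      exact lt_irrefl _ h2
    · intro t t' h
      have h1 : i t = i t' ∨ i t = j t' := by
        have : i t ∈ ({i t', j t'} : Set A) := by rw [← h]; exact Or.inl rfl
        simpa using this
      have h2 : j t = i t' ∨ j t = j t' := by
        have : j t ∈ ({i t', j t'} : Set A) := by rw [← h]; exact Or.inr rfl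
        simpa using this
      have l1 := t.2.1
      have l2 := t'.2.1
      rcases h1 with h1 | h1
      · have h1' : t.1.1 = t'.1.1 := Sum.inl.inj h1
        rcases h2 with h2 | h2
        · have h2' : t.1.2 = t'.1.1 := Sum.inl.inj h2
          rw [h1', h2'] at l1
          exact absurd l1 (lt_irrefl _)
        · have h2' : t.1.2 = t'.1.2 := Sum.inl.inj h2
          exact Subtype.ext (Prod.ext h1' h2')
      · have h1' : t.1.1 = t'.1.2 := Sum.inl.inj h1
        rcases h2 with h2 | h2
        · have h2' : t.1.2 = t'.1.1 := Sum.inl.inj h2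
          rw [h1', h2'] at l1
          exact absurd (l1.trans l2) (lt_irrefl _)
        · have h2' : t.1.2 = t'.1.2 := Sum.inl.inj h2
          rw [h1', h2'] at l1
          exact absurd l1 (lt_irrefl _)
    · intro x y w hxy hxw hyw
      rw [dt_cubic]
      have h1 : f y - f x ≠ 0 := sub_ne_zero.2 fun h => hxy (hf h).symm
      have h2 : f w - f x ≠ 0 := sub_ne_zero.2 fun h => hxw (hf h).symm
      have h3 : f w - f y ≠ 0 := sub_ne_zero.2 fun h => hyw (hf h).symm
      have h4 : f w + f y + f x ≠ 0 := by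
        have := hf0 x
        have := hf0 y
        have := hf0 w
        positivity
      exact mul_ne_zero (mul_ne_zero (mul_ne_zero h1 h2) h3) h4
    · intro t; exact ⟨by simp [i], by simp [j]⟩
    · intro t; exact ⟨by simp [i], by simp [j]⟩
    · intro t; exact ⟨by simp [i], by simp [j]⟩
    · refine ⟨?_, ?_, ?_⟩ <;> intro h <;> have := Sum.inr.inj h <;> revert this <;> decide
    · intro c0 c h
      exact span_cubic (by simp [A]) f hf c0 c h
    · intro u v huv hadj
      have : ∃ x y, u = Sum.inl (Sum.inl x) ∧ v = Sum.inl (Sum.inl y) ∧ ¬ G.Adj x y := by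
        by_contra hcon
        push Not at hcon
        exact hadj ⟨huv, fun x y hx hy => hcon x y hx hy⟩
      obtain ⟨x, y, rfl, rfl, hxy⟩ := this
      have hne : e x ≠ e y := fun h => huv (by rw [e.injective h])
      rcases lt_or_gt_of_ne hne with h | h
      · exact ⟨⟨(x, y), h, hxy⟩, Or.inl ⟨rfl, rfl⟩⟩
      · exact ⟨⟨(y, x), h, fun h => hxy h.symm⟩, Or.inr ⟨rfl, rfl⟩⟩
    · rintro t ⟨_, h⟩
      exact t.2.2 (h _ _ rfl rfl)
  have : Nonempty (Fin 7 ⊕ (T ⊕ T)) := ⟨Sum.inl 0⟩
  let H' : SimpleGraph (V ⊕ (Fin 7 ⊕ (T ⊕ T))) :=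
    { Adj := fun x y => x ≠ y ∧ ∀ u v, x = Sum.inl u → y = Sum.inl v → G.Adj u v
      symm := ⟨fun _ _ h => ⟨h.1.symm, fun u v hx hy => (h.2 v u hy hx).symm⟩⟩
      loopless := ⟨fun _ h => h.1 rfl⟩ }
  refine to_joinComplete G H' (fun x y => Iff.rfl) ?_
  refine main.of_equiv (Equiv.sumAssoc V (Fin 7) (T ⊕ T)) fun x y => ?_
  refine and_congr ?_ ?_
  · rw [(Equiv.sumAssoc V (Fin 7) (T ⊕ T)).injective.ne_iff]
  · constructor
    · intro h u v hu hv
      apply h u v
      · rw [← (Equiv.sumAssoc V (Fin 7) (T ⊕ T)).injective.eq_iff, hu]; rfl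
      · rw [← (Equiv.sumAssoc V (Fin 7) (T ⊕ T)).injective.eq_iff, hv]; rfl
    · rintro h u v rfl rfl
      exact h u v rfl rfl

end Pool.Agent.W4helper48.JN
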