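import Pool.Agent.W4helper48.JN.Five

/-!
# Dimension five: the polytope
-/

set_option autoImplicit false

namespace Pool.Agent.W4helper48.JN

open Set Filter Topology

theorem IsPolytopal.of_equiv {d : ℕ} {U U' : Type} {H : SimpleGraph U} {H' : SimpleGraph U'}
    (e : U ≃ U') (he : ∀ u v, H.Adj u v ↔ H'.Adj (e u) (e v)) (h : IsPolytopal d H) :
    IsPolytopal d H' := by
  obtain ⟨P, p, h1, h2, h3, h4, h5⟩ := h
  refine ⟨P, p ∘ e.symm, h1, h2, h3.comp e.symm.injective, ?_, fun u v => ?_⟩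
  · rw [← h4, Set.range_comp, e.symm.surjective.range_eq, Set.image_univ]
  · have := he (e.symm u) (e.symm v)
    rw [e.apply_symm_apply, e.apply_symm_apply] at this
    rw [← this, h5]
    simp

variable {A T : Type} [Fintype A] [Fintype T]

theorem five_main (a : A → ℝ × ℝ) (i j : T → A) (hij : ∀ t, i t ≠ j t)
    (hp : ∀ t t', ({i t, j t} : Set A) = {i t', j t'} → t = t')
    (ha : ∀ x y z, x ≠ y → x ≠ z → y ≠ z → dt (a x) (a y) (a z) ≠ 0)
    (z z' z'' : A) (hz : ∀ t, z ≠ i t ∧ z ≠ j t) (hz' : ∀ t, z' ≠ i t ∧ z' ≠ j t)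
    (hz'' : ∀ t, z'' ≠ i t ∧ z'' ≠ j t) (hzz : z ≠ z' ∧ z ≠ z'' ∧ z' ≠ z'')
    (hspan : ∀ (c0 : ℝ) (c : Fin 5 → ℝ), (∀ x, af c0 c (ve (a x)) = 0) → c = 0)
    (H : SimpleGraph (A ⊕ (T ⊕ T)))
    (hH : ∀ u v, u ≠ v → ¬ H.Adj u v → ∃ t, (u = Sum.inl (i t) ∧ v = Sum.inl (j t)) ∨
      (u = Sum.inl (j t) ∧ v = Sum.inl (i t)))
    (hH' : ∀ t, ¬ H.Adj (Sum.inl (i t)) (Sum.inl (j t))) : IsPolytopal 5 H := by
  classical
  obtain ⟨s, hs1, hs2, hgp⟩ := exists_params a i j hij hp ha
  have hQz : ∀ (x : A), (∀ t, x ≠ i t ∧ x ≠ j t) → ∀ t, ¬ InQ i j t (Sum.inl x) := by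
    rintro x hx t (h | h | h | h)
    · exact (hx t).1 (Sum.inl.inj h)
    · exact (hx t).2 (Sum.inl.inj h)
    · cases h
    · cases h
  -- the base points are distinct
  have hinj : ∀ u v, u ≠ v → bp a i j s u ≠ bp a i j s v := by
    intro u v huv heq
    have hex : ∃ x : A, (∀ t, x ≠ i t ∧ x ≠ j t) ∧ Sum.inl x ≠ u ∧ Sum.inl x ≠ v := by
      by_contra hcon
      push Not at hcon
      have c1 := hcon z hz
      have c2 := hcon z' hz'
      have c3 := hcon z'' hz''
      have d1 : (Sum.inl z : A ⊕ (T ⊕ T)) ≠ Sum.inl z' := fun h => hzz.1 (Sum.inl.inj h)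
      have d2 : (Sum.inl z : A ⊕ (T ⊕ T)) ≠ Sum.inl z'' := fun h => hzz.2.1 (Sum.inl.inj h)
      have d3 : (Sum.inl z' : A ⊕ (T ⊕ T)) ≠ Sum.inl z'' := fun h => hzz.2.2 (Sum.inl.inj h)
      by_cases e1 : Sum.inl z = u
      · by_cases e2 : Sum.inl z' = u
        · exact d1 (e1.trans e2.symm)
        · have e2' := c2 e2
          by_cases e3 : Sum.inl z'' = u
          · exact d2 (e1.trans e3.symm)
          · exact d3 (e2'.trans (c3 e3).symm)
      · have e1' := c1 e1
        by_cases e2 : Sum.inl z' = u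
        · by_cases e3 : Sum.inl z'' = u
          · exact d3 (e2.trans e3.symm)
          · exact d2 (e1'.trans (c3 e3).symm)
        · exact d1 (e1'.trans (c2 e2).symm)
    obtain ⟨x, hx, hxu, hxv⟩ := hex
    refine hgp u v (Sum.inl x) huv hxu.symm hxv.symm ?_ ?_
    · rintro ⟨t, _, _, h⟩
      exact hQz x hx t h
    · rw [heq]; simp [dt]
  have hne : ∀ t, a (i t) ≠ a (j t) := by
    intro t h
    exact hinj (Sum.inl (i t)) (Sum.inl (j t)) (fun h => hij t (Sum.inl.inj h)) h
  have hoff : ∀ t w, ¬ InQ i j t w → dt (a (i t)) (a (j t)) (bp a i j s w) ≠ 0 := by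
    intro t w hw
    refine hgp (Sum.inl (i t)) (Sum.inl (j t)) w (fun h => hij t (Sum.inl.inj h)) ?_ ?_ ?_
    · rintro rfl; exact hw (Or.inl rfl)
    · rintro rfl; exact hw (Or.inr (Or.inl rfl))
    · rintro ⟨t', h1, h2, h3⟩
      have : t = t' := by
        apply hp
        have e1 : i t = i t' ∨ i t = j t' := by
          rcases h1 with h | h | h | h
          · exact Or.inl (Sum.inl.inj h)
          · exact Or.inr (Sum.inl.inj h)
          · cases h
          · cases h
        have e2 : j t = i t' ∨ j t = j t' := by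
          rcases h2 with h | h | h | h
          · exact Or.inl (Sum.inl.inj h)
          · exact Or.inr (Sum.inl.inj h)
          · cases h
          · cases h
        have := hij t
        rcases e1 with e1 | e1 <;> rcases e2 with e2 | e2
        · exact absurd (e1.trans e2.symm) this
        · rw [e1, e2]
        · rw [e1, e2, Set.pair_comm]
        · exact absurd (e1.trans e2.symm) this
      subst this
      exact hw h3
  -- exposing pairs
  have hexp : ∀ u v, u ≠ v → H.Adj u v → Exp a i j z s u v := by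
    intro u v huv hadj
    by_cases hQ : ∃ t, InQ i j t u ∧ InQ i j t v
    · obtain ⟨t, hu, hv⟩ := hQ
      have b1 : bp a i j s (Sum.inl (i t)) = lin (a (i t)) (a (j t)) 0 := by simp [bp, lin]
      have b2 : bp a i j s (Sum.inl (j t)) = lin (a (i t)) (a (j t)) 1 := by simp [bp, lin]
      have b3 : bp a i j s (Sum.inr (Sum.inl t)) = lin (a (i t)) (a (j t)) (s (Sum.inl t)) := rfl
      have b4 : bp a i j s (Sum.inr (Sum.inr t)) = lin (a (i t)) (a (j t)) (s (Sum.inr t)) := rfl
      have z1 : (Sum.inl z : A ⊕ (T ⊕ T)) ≠ Sum.inl (i t) := fun h => (hz t).1 (Sum.inl.inj h)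
      have z2 : (Sum.inl z : A ⊕ (T ⊕ T)) ≠ Sum.inl (j t) := fun h => (hz t).2 (Sum.inl.inj h)
      have z3 : (Sum.inl z : A ⊕ (T ⊕ T)) ≠ Sum.inr (Sum.inl t) := by simp
      have z4 : (Sum.inl z : A ⊕ (T ⊕ T)) ≠ Sum.inr (Sum.inr t) := by simp
      have h1 := (hs1 t).1
      have h2 := (hs1 t).2
      have h3 := hs2 t
      have m1 : 0 < s (Sum.inl t) - s (Sum.inr t) := by linarith
      have m2 : 0 < 1 - s (Sum.inl t) := by linarith
      have m3 : 0 < 1 - s (Sum.inr t) := by linarith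
      have m4 : 0 < 0 - s (Sum.inr t) := by linarith
      -- the four sides
      have S12 : Exp a i j z s (Sum.inr (Sum.inr t)) (Sum.inl (i t)) := by
        refine exp_side a i j z s t (hne t) _ _ _ _ 1 b4 b1 ?_ z4 z1 (hoff t)
        rintro w hw1 hw2 (rfl | rfl | rfl | rfl)
        · exact absurd rfl hw2
        · exact ⟨_, b2, by nlinarith [mul_pos m3 (show (0:ℝ) < 1 by norm_num)]⟩
        · exact ⟨_, b3, by nlinarith [mul_pos m1 h1]⟩
        · exact absurd rfl hw1
      have S23 : Exp a i j z s (Sum.inl (i t)) (Sum.inr (Sum.inl t)) := by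
        refine exp_side a i j z s t (hne t) _ _ _ _ 1 b1 b3 ?_ z1 z3 (hoff t)
        rintro w hw1 hw2 (rfl | rfl | rfl | rfl)
        · exact absurd rfl hw1
        · exact ⟨_, b2, by nlinarith⟩
        · exact absurd rfl hw2
        · exact ⟨_, b4, by nlinarith [mul_pos m4 m1]⟩
      have S34 : Exp a i j z s (Sum.inr (Sum.inl t)) (Sum.inl (j t)) := by
        refine exp_side a i j z s t (hne t) _ _ _ _ 1 b3 b2 ?_ z3 z2 (hoff t)
        rintro w hw1 hw2 (rfl | rfl | rfl | rfl)
        · exact ⟨_, b1, by nlinarith⟩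
        · exact absurd rfl hw2
        · exact absurd rfl hw1
        · exact ⟨_, b4, by nlinarith [mul_pos m1 m3]⟩
      have S14 : Exp a i j z s (Sum.inr (Sum.inr t)) (Sum.inl (j t)) := by
        refine exp_side a i j z s t (hne t) _ _ _ _ (-1) b4 b2 ?_ z4 z2 (hoff t)
        rintro w hw1 hw2 (rfl | rfl | rfl | rfl)
        · exact ⟨_, b1, by nlinarith⟩
        · exact absurd rfl hw2
        · exact ⟨_, b3, by nlinarith [mul_pos m1 m2]⟩
        · exact absurd rfl hw1
      have S13 : Exp a i j z s (Sum.inr (Sum.inl t)) (Sum.inr (Sum.inr t)) :=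
        exp_diag a i j z s t (hne t) h1 h2 h3 (hz t) (hoff t)
      rcases hu with rfl | rfl | rfl | rfl <;> rcases hv with rfl | rfl | rfl | rfl
      · exact absurd rfl huv
      · exact absurd hadj (hH' t)
      · exact S23
      · exact S12.symm
      · exact absurd hadj.symm (hH' t)
      · exact absurd rfl huv
      · exact S34.symm
      · exact S14.symm
      · exact S23.symm
      · exact S34
      · exact absurd rfl huv
      · exact S13
      · exact S12
      · exact S14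
      · exact S13.symm
      · exact absurd rfl huv
    · apply exp_general
      intro w hwu hwv
      refine hgp u v w huv hwu.symm hwv.symm ?_
      rintro ⟨t, h1, h2, _⟩
      exact hQ ⟨t, h1, h2⟩
  have hvert : ∀ u, ∃ q0 q1 : ℝ × ℝ → ℝ, IsQ q0 ∧ IsQ q1 ∧ ∀ᶠ ε in 𝓝[>] (0 : ℝ),
      ev a i j z s ε u (fun b => q0 b + ε * q1 b) = 0 ∧
      ∀ w, w ≠ u → 0 < ev a i j z s ε w (fun b => q0 b + ε * q1 b) := fun u =>
    exp_vertex a i j z s u fun w hw => hinj w u hw
  choose q0 q1 hq0 hq1 hq using hvert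
  choose! r0 r1 hr0 hr1 hr using hexp
  have hev : ∀ᶠ ε in 𝓝[>] (0 : ℝ),
      (∀ u, ev a i j z s ε u (fun b => q0 u b + ε * q1 u b) = 0 ∧
        ∀ w, w ≠ u → 0 < ev a i j z s ε w (fun b => q0 u b + ε * q1 u b)) ∧
      (∀ u v, u ≠ v → H.Adj u v →
        ev a i j z s ε u (fun b => r0 u v b + ε * r1 u v b) ≤ 0 ∧
        ev a i j z s ε v (fun b => r0 u v b + ε * r1 u v b) ≤ 0 ∧
        ∀ w, w ≠ u → w ≠ v → 0 < ev a i j z s ε w (fun b => r0 u v b + ε * r1 u v b)) := by
    refine Filter.Eventually.and (eventually_all.2 hq) ?_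
    rw [eventually_all]
    intro u
    rw [eventually_all]
    intro v
    by_cases h : u ≠ v ∧ H.Adj u v
    · filter_upwards [hr u v h.1 h.2] with ε hε _ _
      exact hε
    · exact Eventually.of_forall fun ε h1 h2 => absurd ⟨h1, h2⟩ h
  obtain ⟨ε, ⟨hε1, hε2⟩, hε0⟩ := (hev.and self_mem_nhdsWithin).exists
  have hε0' : (0 : ℝ) < ε := hε0
  have : Nonempty (A ⊕ (T ⊕ T)) := ⟨Sum.inl z⟩
  refine polytopal_of H (vp a i j z s ε) ?_ ?_ ?_ ?_
  · intro c0 c h
    apply hspan c0 c
    intro x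
    have := h (Sum.inl x)
    rw [af_vp a i j z s ε _ c0 c (fun b => af c0 c (ve b)) (fun _ => rfl)] at this
    simpa [ev, pl, bp] using this
  · intro u
    obtain ⟨c0, c, hc⟩ := (hq0 u).add ((hq1 u).smul ε)
    refine ⟨c0, c, ?_, fun w hw => ?_⟩
    · rw [af_vp a i j z s ε _ c0 c _ hc]
      exact (hε1 u).1
    · rw [af_vp a i j z s ε _ c0 c _ hc]
      exact (hε1 u).2 w hw
  · intro u v huv
    obtain ⟨c0, c, hc⟩ := (hr0 u v huv.ne huv).add ((hr1 u v huv.ne huv).smul ε)
    obtain ⟨h1, h2, h3⟩ := hε2 u v huv.ne huv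
    refine ⟨c0, c, ?_, ?_, fun w hwu hwv => ?_⟩
    · rw [af_vp a i j z s ε _ c0 c _ hc]
      exact h1
    · rw [af_vp a i j z s ε _ c0 c _ hc]
      exact h2
    · rw [af_vp a i j z s ε _ c0 c _ hc]
      exact h3 w hwu hwv
  · -- the diagonals that are not edges
    have main : ∀ t, ∃ (α β : ℝ) (c : A ⊕ (T ⊕ T) → ℝ) (w : A ⊕ (T ⊕ T)),
        w ≠ Sum.inl (i t) ∧ w ≠ Sum.inl (j t) ∧ (∀ x, 0 ≤ c x) ∧ 0 < c w ∧ ∑ x, c x = α + β ∧
        ∀ k, α * vp a i j z s ε (Sum.inl (i t)) k + β * vp a i j z s ε (Sum.inl (j t)) k =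
          ∑ x, c x * vp a i j z s ε x k := by
      intro t
      have h1 := (hs1 t).1
      have h2 := (hs1 t).2
      have h3 := hs2 t
      set τ := s (Sum.inl t) with hτ
      obtain ⟨σ, hσ⟩ : ∃ σ, σ = -s (Sum.inr t) := ⟨_, rfl⟩
      have hσ' : s (Sum.inr t) = -σ := by rw [hσ]; ring
      have hσ0 : 0 < σ := by rw [hσ]; linarith
      let γ : ℝ := τ * (1 - τ)
      let κ : ℝ := σ * (1 + σ)
      have hγ : 0 < γ := mul_pos h1 (by linarith)
      have hκ : 0 < κ := mul_pos hσ0 (by linarith)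
      let c : A ⊕ (T ⊕ T) → ℝ := Pi.single (Sum.inr (Sum.inr t)) γ +
        Pi.single (Sum.inr (Sum.inl t)) (κ / (1 + ε)) + Pi.single (Sum.inl z) (κ * ε / (1 + ε))
      have hsum : ∀ f : A ⊕ (T ⊕ T) → ℝ, ∑ x, c x * f x = γ * f (Sum.inr (Sum.inr t)) +
          κ / (1 + ε) * f (Sum.inr (Sum.inl t)) + κ * ε / (1 + ε) * f (Sum.inl z) := by
        intro f
        simp only [c, Pi.add_apply, add_mul, Finset.sum_add_distrib]
        simp [Pi.single_apply]
      have hc0 : ∀ x, 0 ≤ c x := by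
        intro x
        simp only [c, Pi.add_apply]
        have n1 : 0 ≤ (Pi.single (Sum.inr (Sum.inr t)) γ : A ⊕ (T ⊕ T) → ℝ) x := by
          rw [Pi.single_apply]; split_ifs <;> positivity
        have n2 : 0 ≤ (Pi.single (Sum.inr (Sum.inl t)) (κ / (1 + ε)) : A ⊕ (T ⊕ T) → ℝ) x := by
          rw [Pi.single_apply]; split_ifs <;> positivity
        have n3 : 0 ≤ (Pi.single (Sum.inl z) (κ * ε / (1 + ε)) : A ⊕ (T ⊕ T) → ℝ) x := by
          rw [Pi.single_apply]; split_ifs <;> positivity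
        linarith
      refine ⟨(τ + σ) * (1 + σ) * (1 - τ), σ * τ * (τ + σ), c, Sum.inr (Sum.inr t), by simp,
        by simp, hc0, ?_, ?_, ?_⟩
      · simp [c, hγ]
      · have := hsum fun _ => 1
        simp only [mul_one] at this
        rw [this]
        simp only [γ, κ]
        field_simp
        ring
      · intro k
        rw [hsum]
        have hz1 : bp a i j s (Sum.inl z) = a z := rfl
        simp only [vp, pl, hz1, zero_mul, add_zero, one_mul, sub_zero]
        have key : ((τ + σ) * (1 + σ) * (1 - τ)) * ve (a (i t)) k +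
            (σ * τ * (τ + σ)) * ve (a (j t)) k =
            γ * ve (bp a i j s (Sum.inr (Sum.inr t))) k +
              κ * ve (bp a i j s (Sum.inr (Sum.inl t))) k := by
          have b3 : bp a i j s (Sum.inr (Sum.inl t)) = lin (a (i t)) (a (j t)) τ := rfl
          have b4 : bp a i j s (Sum.inr (Sum.inr t)) = lin (a (i t)) (a (j t)) (-σ) := by
            rw [← hσ']; rfl
          rw [b3, b4]
          fin_cases k <;> simp [ve, lin, γ, κ] <;> ring
        have b1 : bp a i j s (Sum.inl (i t)) = a (i t) := rfl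
        have b2 : bp a i j s (Sum.inl (j t)) = a (j t) := rfl
        rw [b1, b2, key]
        field_simp
        ring
    intro u v huv hadj
    obtain ⟨t, ⟨rfl, rfl⟩ | ⟨rfl, rfl⟩⟩ := hH u v huv hadj
    · exact main t
    · obtain ⟨α, β, c, w, h1, h2, h3, h4, h5, h6⟩ := main t
      refine ⟨β, α, c, w, h2, h1, h3, h4, by rw [h5]; ring, fun k => ?_⟩
      rw [← h6 k]; ring

end Pool.Agent.W4helper48.JN
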