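import Pool.Agent.W4helper48.JN.Defs

/-!
# Polytopes given by coordinates
-/

set_option autoImplicit false

namespace Pool.Agent.W4helper48.JN

open Set

section geometry

variable {d : ℕ} {U : Type} {E : Type} [NormedAddCommGroup E] [InnerProductSpace ℝ E]

theorem exposed_segment (p : U → E) (u v : U) (l : E →L[ℝ] ℝ) (b : ℝ)
    (hu : l (p u) + b = 0) (hv : l (p v) + b = 0)
    (hw : ∀ w, w ≠ u → w ≠ v → 0 < l (p w) + b) :
    IsExposed ℝ (convexHull ℝ (range p)) (segment ℝ (p u) (p v)) := by
  have hseg : ∀ x ∈ segment ℝ (p u) (p v), l x + b = 0 := by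
    rintro x ⟨s, t, hs, ht, hst, rfl⟩
    have h1 : l (p u) = -b := by linarith
    have h2 : l (p v) = -b := by linarith
    simp only [map_add, map_smul, smul_eq_mul, h1, h2]
    have : s = 1 - t := by linarith
    rw [this]; ring
  have hC : Convex ℝ {x : E | 0 ≤ l x + b ∧ (l x + b = 0 → x ∈ segment ℝ (p u) (p v))} := by
    intro x hx y hy s t hs ht hst
    have hval : l (s • x + t • y) + b = s * (l x + b) + t * (l y + b) := by
      simp only [map_add, map_smul, smul_eq_mul]
      have : b = (s + t) * b := by rw [hst, one_mul]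
      linear_combination this
    have hx0 := hx.1
    have hy0 := hy.1
    refine ⟨?_, ?_⟩
    · rw [hval]
      positivity
    · intro h0
      rw [hval] at h0
      have h1 : s * (l x + b) = 0 := by nlinarith [mul_nonneg hs hx0, mul_nonneg ht hy0]
      have h2 : t * (l y + b) = 0 := by nlinarith [mul_nonneg hs hx0, mul_nonneg ht hy0]
      rcases eq_or_lt_of_le hs with hs0 | hs0
      · have : t = 1 := by linarith
        subst this
        rw [← hs0]
        simp only [zero_smul, one_smul, zero_add]
        exact hy.2 (by simpa using h2)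
      · rcases eq_or_lt_of_le ht with ht0 | ht0
        · have : s = 1 := by linarith
          subst this
          rw [← ht0]
          simp only [zero_smul, one_smul, add_zero]
          exact hx.2 (by simpa using h1)
        · have hx' := hx.2 ((mul_eq_zero.1 h1).resolve_left hs0.ne')
          have hy' := hy.2 ((mul_eq_zero.1 h2).resolve_left ht0.ne')
          exact (convex_segment _ _) hx' hy' hs ht hst
  have hsub : convexHull ℝ (range p) ⊆
      {x : E | 0 ≤ l x + b ∧ (l x + b = 0 → x ∈ segment ℝ (p u) (p v))} := by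
    apply convexHull_min _ hC
    rintro _ ⟨w, rfl⟩
    by_cases hwu : w = u
    · subst hwu
      exact ⟨hu.ge, fun _ => left_mem_segment ℝ _ _⟩
    by_cases hwv : w = v
    · subst hwv
      exact ⟨hv.ge, fun _ => right_mem_segment ℝ _ _⟩
    · exact ⟨(hw w hwu hwv).le, fun h => absurd h (hw w hwu hwv).ne'⟩
  have hsegsub : segment ℝ (p u) (p v) ⊆ convexHull ℝ (range p) :=
    segment_subset_convexHull (mem_range_self u) (mem_range_self v)
  intro _
  refine ⟨-l, ?_⟩
  ext x
  constructor
  · intro hx
    refine ⟨hsegsub hx, fun y hy => ?_⟩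
    have h1 := hseg x hx
    have h2 := (hsub hy).1
    simp only [_root_.neg_apply]
    linarith
  · rintro ⟨hx, hmax⟩
    apply (hsub hx).2
    have h1 := hmax (p u) (subset_convexHull ℝ _ (mem_range_self u))
    simp only [_root_.neg_apply] at h1
    have h2 := (hsub hx).1
    linarith

theorem extremePoints_eq (p : U → E)
    (h : ∀ u, ∃ (l : E →L[ℝ] ℝ) (b : ℝ), l (p u) + b = 0 ∧ ∀ w, w ≠ u → 0 < l (p w) + b) :
    range p = (convexHull ℝ (range p)).extremePoints ℝ := by
  apply Subset.antisymm _ extremePoints_convexHull_subset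
  rintro _ ⟨u, rfl⟩
  obtain ⟨l, b, hu, hw⟩ := h u
  have := exposed_segment p u u l b hu hu (fun w hw1 _ => hw w hw1)
  rw [segment_same] at this
  exact isExtreme_singleton.1 this.isExtreme

theorem not_exposed [Fintype U] (p : U → E) (hp : Function.Injective p)
    (hext : range p = (convexHull ℝ (range p)).extremePoints ℝ) (u v w : U)
    (hwu : w ≠ u) (hwv : w ≠ v) (a b : ℝ) (c : U → ℝ) (hc : ∀ x, 0 ≤ c x)
    (hcw : 0 < c w) (hsum : ∑ x, c x = a + b) (hcomb : a • p u + b • p v = ∑ x, c x • p x) :
    ¬ IsExposed ℝ (convexHull ℝ (range p)) (segment ℝ (p u) (p v)) := by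
  intro hexp
  have hext2 : ∀ x, p x ∈ segment ℝ (p u) (p v) → x = u ∨ x = v := by
    intro x hx
    have h1 : p x ∈ (convexHull ℝ (range p)).extremePoints ℝ := by
      rw [← hext]; exact mem_range_self x
    have hu : p u ∈ convexHull ℝ (range p) := subset_convexHull ℝ _ (mem_range_self u)
    have hv : p v ∈ convexHull ℝ (range p) := subset_convexHull ℝ _ (mem_range_self v)
    rcases (mem_extremePoints_iff_forall_segment.1 h1).2 _ hu _ hv hx with h | h
    · exact Or.inl (hp h.symm)
    · exact Or.inr (hp h.symm)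
  obtain ⟨l, hl⟩ := hexp ⟨p u, left_mem_segment ℝ _ _⟩
  have hu := left_mem_segment ℝ (p u) (p v)
  have hv := right_mem_segment ℝ (p u) (p v)
  rw [hl] at hu hv
  have huv : l (p u) = l (p v) := le_antisymm (hv.2 _ hu.1) (hu.2 _ hv.1)
  have hle : ∀ x, l (p x) ≤ l (p u) := fun x =>
    hu.2 _ (subset_convexHull ℝ _ (mem_range_self x))
  have hl2 : a * l (p u) + b * l (p v) = ∑ x, c x * l (p x) := by
    have := congrArg l hcomb
    simpa only [map_add, map_smul, smul_eq_mul, map_sum] using this
  have hzero : ∑ x, c x * (l (p u) - l (p x)) = 0 := by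
    have : ∑ x, c x * (l (p u) - l (p x)) = (∑ x, c x) * l (p u) - ∑ x, c x * l (p x) := by
      rw [Finset.sum_mul, ← Finset.sum_sub_distrib]
      exact Finset.sum_congr rfl fun x _ => by ring
    rw [this, hsum, ← hl2, ← huv]; ring
  have hall := (Finset.sum_eq_zero_iff_of_nonneg
    (fun x _ => mul_nonneg (hc x) (sub_nonneg.2 (hle x)))).1 hzero w (Finset.mem_univ w)
  have hlw : l (p w) = l (p u) := by
    rcases mul_eq_zero.1 hall with h | h
    · exact absurd h hcw.ne'
    · linarith
  have hmem : p w ∈ segment ℝ (p u) (p v) := by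
    rw [hl]
    refine ⟨subset_convexHull ℝ _ (mem_range_self w), fun y hy => ?_⟩
    rw [hlw]
    exact hu.2 y hy
  rcases hext2 w hmem with h | h
  · exact hwu h
  · exact hwv h

end geometry

/-- The affine function `c0 + ∑ c_k x_k` on `ℝ^d`. -/
def af {d : ℕ} (c0 : ℝ) (c : Fin d → ℝ) (x : Fin d → ℝ) : ℝ := c0 + ∑ k, c k * x k

theorem af_add {d : ℕ} (c0 c0' : ℝ) (c c' : Fin d → ℝ) (x : Fin d → ℝ) :
    af (c0 + c0') (c + c') x = af c0 c x + af c0' c' x := by
  simp only [af, Pi.add_apply, add_mul, Finset.sum_add_distrib]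
  ring

theorem af_smul {d : ℕ} (t c0 : ℝ) (c : Fin d → ℝ) (x : Fin d → ℝ) :
    af (t * c0) (t • c) x = t * af c0 c x := by
  simp only [af, Pi.smul_apply, smul_eq_mul, mul_add, Finset.mul_sum, mul_assoc]

/-- The linear functional with coefficients `c`. -/
noncomputable def fl {d : ℕ} (c : Fin d → ℝ) : EuclideanSpace ℝ (Fin d) →L[ℝ] ℝ :=
  ∑ k : Fin d, c k • EuclideanSpace.proj k

theorem fl_apply {d : ℕ} (c : Fin d → ℝ) (x : Fin d → ℝ) (c0 : ℝ) :
    fl c (WithLp.toLp 2 x) + c0 = af c0 c x := by
  simp [fl, af, add_comm]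

/-- A graph is `d`-polytopal if its vertices can be placed at points `p u` of `ℝ^d` such that: no
nonconstant affine function vanishes at all of them; for each vertex there is an affine function
that vanishes there and is positive at the others; for each edge there is one that is at most zero
at the two ends and positive at all other vertices; for each pair `u ≠ v` of nonadjacent vertices
some affine combination of `p u` and `p v` is a combination with nonnegative coefficients of the
points, with the coefficient of a third vertex positive. -/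
theorem polytopal_of {d : ℕ} {U : Type} [Fintype U] [Nonempty U] (H : SimpleGraph U)
    (p : U → Fin d → ℝ)
    (hspan : ∀ (c0 : ℝ) (c : Fin d → ℝ), (∀ u, af c0 c (p u) = 0) → c = 0)
    (hV : ∀ u, ∃ (c0 : ℝ) (c : Fin d → ℝ), af c0 c (p u) = 0 ∧ ∀ w, w ≠ u → 0 < af c0 c (p w))
    (hE : ∀ u v, H.Adj u v → ∃ (c0 : ℝ) (c : Fin d → ℝ), af c0 c (p u) ≤ 0 ∧
      af c0 c (p v) ≤ 0 ∧ ∀ w, w ≠ u → w ≠ v → 0 < af c0 c (p w))
    (hN : ∀ u v, u ≠ v → ¬ H.Adj u v → ∃ (a b : ℝ) (c : U → ℝ) (w : U), w ≠ u ∧ w ≠ v ∧
      (∀ x, 0 ≤ c x) ∧ 0 < c w ∧ ∑ x, c x = a + b ∧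
      ∀ k, a * p u k + b * p v k = ∑ x, c x * p x k) :
    IsPolytopal d H := by
  classical
  set q : U → EuclideanSpace ℝ (Fin d) := fun u => WithLp.toLp 2 (p u) with hq
  have hqa : ∀ (c0 : ℝ) (c : Fin d → ℝ) (u : U), fl c (q u) + c0 = af c0 c (p u) :=
    fun c0 c u => fl_apply c (p u) c0
  have hinj : Function.Injective q := by
    intro u w huw
    by_contra hne
    obtain ⟨c0, c, h0, hpos⟩ := hV u
    have h2 := hpos w (Ne.symm hne)
    rw [← hqa] at h2 h0
    rw [huw] at h0
    linarith
  have hext : range q = (convexHull ℝ (range q)).extremePoints ℝ := by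
    apply extremePoints_eq
    intro u
    obtain ⟨c0, c, h0, hpos⟩ := hV u
    refine ⟨fl c, c0, ?_, fun w hw => ?_⟩
    · rw [hqa, h0]
    · rw [hqa]
      exact hpos w hw
  refine ⟨convexHull ℝ (range q), q, ⟨(finite_range q).toFinset, by simp⟩, ?_, hinj, hext, ?_⟩
  · rw [interior_convexHull_nonempty_iff_affineSpan_eq_top]
    obtain ⟨u0⟩ := ‹Nonempty U›
    have hnonempty : (affineSpan ℝ (range q) : Set _).Nonempty :=
      ⟨q u0, subset_affineSpan ℝ _ (mem_range_self u0)⟩
    by_contra hcon
    have hdir : (affineSpan ℝ (range q)).direction < ⊤ := by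
      rw [lt_top_iff_ne_top]
      intro hd
      exact hcon ((AffineSubspace.direction_eq_top_iff_of_nonempty hnonempty).1 hd)
    obtain ⟨g, hg0, hg⟩ := Submodule.exists_le_ker_of_lt_top _ hdir
    have hconst : ∀ u, g (q u) = g (q u0) := by
      intro u
      have : q u -ᵥ q u0 ∈ (affineSpan ℝ (range q)).direction :=
        AffineSubspace.vsub_mem_direction (subset_affineSpan ℝ _ (mem_range_self u))
          (subset_affineSpan ℝ _ (mem_range_self u0))
      have h2 := hg this
      rw [LinearMap.mem_ker, vsub_eq_sub, map_sub] at h2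
      linarith
    have hgx : ∀ x : EuclideanSpace ℝ (Fin d), g x = ∑ k, g (EuclideanSpace.single k 1) * x k := by
      intro x
      have hdec : x = ∑ k : Fin d, (x k) • EuclideanSpace.single k (1 : ℝ) := by
        ext j
        simp [Pi.single_apply]
      conv_lhs => rw [hdec]
      rw [map_sum]
      exact Finset.sum_congr rfl fun k _ => by rw [map_smul, smul_eq_mul, mul_comm]
    have hc := hspan (-(g (q u0))) (fun k => g (EuclideanSpace.single k 1)) (fun u => by
      have h1 := hgx (q u)
      simp only [af]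
      have h2 : (∑ k, g (EuclideanSpace.single k 1) * p u k) = g (q u) := h1.symm
      rw [h2, hconst u]
      ring)
    apply hg0
    apply LinearMap.ext
    intro x
    rw [hgx x]
    simp only [LinearMap.zero_apply]
    refine Finset.sum_eq_zero fun k _ => ?_
    rw [show g (EuclideanSpace.single k 1) = 0 from congrFun hc k, zero_mul]
  · intro u v
    constructor
    · intro huv
      refine ⟨huv.ne, ?_⟩
      obtain ⟨f0, f, hu0, hv0, hw0⟩ := hE u v huv
      obtain ⟨Fu0, Fu, hFu0, hFuw⟩ := hV u
      obtain ⟨Fv0, Fv, hFv0, hFvw⟩ := hV v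
      have hFuv : 0 < af Fu0 Fu (p v) := hFuw v huv.ne'
      have hFvu : 0 < af Fv0 Fv (p u) := hFvw u huv.ne
      let α : ℝ := -(af f0 f (p u)) / af Fv0 Fv (p u)
      let β : ℝ := -(af f0 f (p v)) / af Fu0 Fu (p v)
      have hα : 0 ≤ α := div_nonneg (by linarith) hFvu.le
      have hβ : 0 ≤ β := div_nonneg (by linarith) hFuv.le
      have hval : ∀ w, af (f0 + α * Fv0 + β * Fu0) (f + α • Fv + β • Fu) (p w) =
          af f0 f (p w) + α * af Fv0 Fv (p w) + β * af Fu0 Fu (p w) := by
        intro w
        rw [af_add, af_add, af_smul, af_smul]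
      refine exposed_segment q u v (fl (f + α • Fv + β • Fu)) (f0 + α * Fv0 + β * Fu0) ?_ ?_
        fun w hwu hwv => ?_
      · rw [hqa, hval, hFu0]
        simp only [α]
        field_simp
        ring
      · rw [hqa, hval, hFv0]
        simp only [β]
        field_simp
        ring
      · rw [hqa, hval]
        have h1 := hw0 w hwu hwv
        have h2 := hFuw w hwu
        have h3 := hFvw w hwv
        positivity
    · rintro ⟨hne, hexp⟩
      by_contra hadj
      obtain ⟨a, b, c, w, hwu, hwv, hc, hcw, hsum, hcomb⟩ := hN u v hne hadj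
      refine not_exposed q hinj hext u v w hwu hwv a b c hc hcw hsum ?_ hexp
      ext k
      have := hcomb k
      simpa [hq, Finset.sum_apply] using this

end Pool.Agent.W4helper48.JN
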