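import Pool.Agent.W4helper48.JN.FiveEnd

/-!
# Assembly
-/

set_option autoImplicit false

namespace Pool.Agent.W4helper48.JN

open Set

/-- `G + K_n` is `d`-polytopal for some `n ≥ 1`. -/
def Mem {V : Type} (G : SimpleGraph V) (d : ℕ) : Prop :=
  ∃ n ≥ 1, IsPolytopal d (joinComplete G n)

section

variable {V : Type} (G : SimpleGraph V)

theorem adj_inr {n : ℕ} (x : V ⊕ Fin n) (k : Fin n) (h : x ≠ Sum.inr k) :
    (joinComplete G n).Adj (Sum.inr k) x :=
  ⟨h.symm, fun u v hu _ => by cases hu⟩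

theorem adj_inl {n : ℕ} (u v : V) :
    (joinComplete G n).Adj (Sum.inl u) (Sum.inl v) ↔ G.Adj u v := by
  constructor
  · intro h
    exact h.2 u v rfl rfl
  · intro h
    refine ⟨fun e => h.ne (Sum.inl.inj e), fun a b ha hb => ?_⟩
    rw [← Sum.inl.inj ha, ← Sum.inl.inj hb]
    exact h

/-- `(G + K_a) + K_b` is `G + K_(a+b)` -/
theorem join_join (a b d : ℕ) (h : IsPolytopal d (joinComplete (joinComplete G a) b)) :
    IsPolytopal d (joinComplete G (a + b)) := by
  refine h.of_equiv ((Equiv.sumAssoc V (Fin a) (Fin b)).trans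
    (Equiv.sumCongr (Equiv.refl V) finSumFinEquiv)) ?_
  rintro ((x | x) | x) ((y | y) | y)
  · change _ ↔ (joinComplete G (a + b)).Adj (Sum.inl x) (Sum.inl y)
    rw [adj_inl, adj_inl, adj_inl]
  · change _ ↔ (joinComplete G (a + b)).Adj (Sum.inl x) (Sum.inr _)
    rw [adj_inl]
    exact ⟨fun _ => (adj_inr G _ _ (by simp)).symm, fun _ => (adj_inr G _ _ (by simp)).symm⟩
  · change _ ↔ (joinComplete G (a + b)).Adj (Sum.inl x) (Sum.inr _)
    exact ⟨fun _ => (adj_inr G _ _ (by simp)).symm, fun _ => (adj_inr _ _ _ (by simp)).symm⟩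
  · change _ ↔ (joinComplete G (a + b)).Adj (Sum.inr _) (Sum.inl y)
    rw [adj_inl]
    exact ⟨fun _ => adj_inr G _ _ (by simp), fun _ => adj_inr G _ _ (by simp)⟩
  · change _ ↔ (joinComplete G (a + b)).Adj (Sum.inr (finSumFinEquiv (Sum.inl x)))
      (Sum.inr (finSumFinEquiv (Sum.inl y)))
    rw [adj_inl]
    constructor
    · intro h
      refine adj_inr G _ _ fun e => h.ne ?_
      have := finSumFinEquiv.injective (Sum.inr.inj e)
      rw [Sum.inl.inj this]
    · intro h
      refine adj_inr G _ _ fun e => h.ne ?_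
      rw [Sum.inr.inj e]
  · change _ ↔ (joinComplete G (a + b)).Adj (Sum.inr (finSumFinEquiv (Sum.inl x)))
      (Sum.inr (finSumFinEquiv (Sum.inr y)))
    refine ⟨fun _ => adj_inr G _ _ fun e => ?_, fun _ => (adj_inr _ _ _ (by simp)).symm⟩
    have := finSumFinEquiv.injective (Sum.inr.inj e)
    cases this
  · change _ ↔ (joinComplete G (a + b)).Adj (Sum.inr _) (Sum.inl y)
    exact ⟨fun _ => adj_inr G _ _ (by simp), fun _ => adj_inr _ _ _ (by simp)⟩
  · change _ ↔ (joinComplete G (a + b)).Adj (Sum.inr (finSumFinEquiv (Sum.inr x)))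
      (Sum.inr (finSumFinEquiv (Sum.inl y)))
    refine ⟨fun _ => adj_inr G _ _ fun e => ?_, fun _ => adj_inr _ _ _ (by simp)⟩
    have := finSumFinEquiv.injective (Sum.inr.inj e)
    cases this
  · change _ ↔ (joinComplete G (a + b)).Adj (Sum.inr (finSumFinEquiv (Sum.inr x)))
      (Sum.inr (finSumFinEquiv (Sum.inr y)))
    constructor
    · intro h
      refine adj_inr G _ _ fun e => h.ne ?_
      have := finSumFinEquiv.injective (Sum.inr.inj e)
      rw [Sum.inr.inj this]
    · intro h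
      refine adj_inr _ _ _ fun e => h.ne ?_
      rw [Sum.inr.inj e]

theorem join_eq_top {n : ℕ} (h : G = ⊤) : joinComplete G n = ⊤ := by
  ext x y
  rw [SimpleGraph.top_adj]
  refine ⟨fun h => h.1, fun hxy => ⟨hxy, ?_⟩⟩
  rintro u v rfl rfl
  rw [h, SimpleGraph.top_adj]
  exact fun e => hxy (by rw [e])

theorem top_of_join {n : ℕ} (h : joinComplete G n = ⊤) : G = ⊤ := by
  ext u v
  rw [← adj_inl G (n := n), h]
  simp

variable [Fintype V] [Nonempty V]

theorem not_mem_zero (hLow : LowStm) : ¬ Mem G 0 := by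
  rintro ⟨n, hn, h⟩
  have := hLow.1 _ h
  obtain ⟨v⟩ := ‹Nonempty V›
  have := this.elim (Sum.inl v : V ⊕ Fin n) (Sum.inr ⟨0, hn⟩)
  cases this

theorem mem_one (hLow : LowStm) : Mem G 1 ↔ Fintype.card V = 1 := by
  constructor
  · rintro ⟨n, hn, h⟩
    have := hLow.2.1 _ h
    rw [Fintype.card_sum, Fintype.card_fin] at this
    have := Fintype.card_pos (α := V)
    omega
  · intro h
    refine ⟨1, le_refl _, ?_⟩
    have hG : G = ⊤ := by
      ext u v
      have := Fintype.card_le_one_iff.1 h.le u v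
      simp [this]
    rw [join_eq_top G hG]
    exact hLow.2.2.2 1 (by rw [Fintype.card_sum, Fintype.card_fin, h])

theorem of_mem_two (hLow : LowStm) (h : Mem G 2) :
    Fintype.card V = 1 ∨ (Fintype.card V = 2 ∧ G = ⊤) := by
  obtain ⟨n, hn, h⟩ := h
  obtain ⟨h1, h2⟩ := hLow.2.2.1 _ (Sum.inr ⟨0, hn⟩) (fun u hu => adj_inr G u _ hu) h
  rw [Fintype.card_sum, Fintype.card_fin] at h1
  have := Fintype.card_pos (α := V)
  have hG := top_of_join G h2
  rcases Nat.lt_or_ge (Fintype.card V) 2 with h3 | h3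
  · left; omega
  · right; exact ⟨by omega, hG⟩

theorem mem_two (hLow : LowStm) (h : Fintype.card V = 2) (hG : G = ⊤) : Mem G 2 := by
  refine ⟨1, le_refl _, ?_⟩
  rw [join_eq_top G hG]
  exact hLow.2.2.2 2 (by rw [Fintype.card_sum, Fintype.card_fin, h])

/-- the equivalence of `V ⊕ Fin (k+1)` and `Option (V ⊕ Fin k)` -/
def optEquiv (V : Type) (k : ℕ) : V ⊕ Fin (k + 1) ≃ Option (V ⊕ Fin k) where
  toFun := Sum.elim (fun v => some (Sum.inl v))
    (fun i => if h : i.val < k then some (Sum.inr ⟨i.val, h⟩) else none)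
  invFun x := x.elim (Sum.inr (Fin.last k)) (Sum.elim Sum.inl fun i => Sum.inr i.castSucc)
  left_inv := by
    rintro (v | i)
    · rfl
    · by_cases h : i.val < k
      · simp [h]
      · have : i = Fin.last k := Fin.ext (by have := i.isLt; simp; omega)
        subst this
        simp
  right_inv := by
    rintro (_ | v | i)
    · simp
    · rfl
    · simp

omit [Fintype V] [Nonempty V] in
theorem isOuterHam_congr {W W' : Type} {H : SimpleGraph W} {H' : SimpleGraph W'} (e : W ≃ W')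
    (he : ∀ u v, H.Adj u v ↔ H'.Adj (e u) (e v)) (h : IsOuterHam H) : IsOuterHam H' := by
  obtain ⟨N, f, hN, h1, h2, h3⟩ := h
  have he' : ∀ u v, H'.Adj u v ↔ H.Adj (e.symm u) (e.symm v) := by
    intro u v
    rw [he]
    simp
  refine ⟨N, e.symm.trans f, hN, fun u v h => ?_, fun u v hu hv => ?_, fun a b c d h4 h5 h6 h7 h8 => ?_⟩
  · rw [he']; exact h1 _ _ h
  · rw [he']; exact h2 _ _ hu hv
  · rw [he'] at h7 h8
    exact h3 _ _ _ _ h4 h5 h6 h7 h8

theorem of_mem_three (hL : LinkStm) (hC : CombStm) (h : Mem G 3) :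
    IsOuterHam G ∨ (IsPathGraph G ∧ 2 ≤ Fintype.card V) ∨ Fintype.card V = 1 ∨
      (Fintype.card V = 2 ∧ G = ⊥) := by
  obtain ⟨n, hn, h⟩ := h
  obtain ⟨k, rfl⟩ : ∃ k, n = k + 1 := ⟨n - 1, by omega⟩
  let e := optEquiv V k
  let H : SimpleGraph (Option (V ⊕ Fin k)) := (joinComplete G (k + 1)).comap e.symm
  have hH : IsPolytopal 3 H := h.of_equiv e fun u v => by simp [H]
  have h1 : ∀ u, H.Adj none (some u) := by
    intro u
    change (joinComplete G (k + 1)).Adj (Sum.inr (Fin.last k)) (e.symm (some u))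
    apply adj_inr
    intro h2
    have : e.symm (some u) = e.symm none := h2
    exact Option.some_ne_none u (e.symm.injective this)
  have h2 := hL H h1 hH
  have h3 : IsOuterHam (joinComplete G k) := by
    refine isOuterHam_congr (Equiv.refl _) ?_ h2
    rintro (x | x) (y | y)
    · change (joinComplete G (k + 1)).Adj (Sum.inl x) (Sum.inl y) ↔ _
      rw [adj_inl]
      exact (adj_inl G (n := k) x y).symm
    · change (joinComplete G (k + 1)).Adj (Sum.inl x) (Sum.inr _) ↔ _
      exact ⟨fun _ => (adj_inr G _ _ (by simp)).symm, fun _ => (adj_inr G _ _ (by simp)).symm⟩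
    · change (joinComplete G (k + 1)).Adj (Sum.inr _) (Sum.inl y) ↔ _
      exact ⟨fun _ => (adj_inr G _ _ (by simp)), fun _ => (adj_inr G _ _ (by simp))⟩
    · change (joinComplete G (k + 1)).Adj (Sum.inr x.castSucc) (Sum.inr y.castSucc) ↔
        (joinComplete G k).Adj (Sum.inr x) (Sum.inr y)
      constructor
      · intro h
        refine adj_inr G _ _ fun e => h.ne ?_
        rw [Sum.inr.inj e]
      · intro h
        refine adj_inr G _ _ fun e => h.ne ?_
        have := Sum.inr.inj e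
        rw [Fin.castSucc_injective k this]
  rcases hC.1 G k h3 with ⟨_, h4⟩ | ⟨_, h4, h5⟩ | ⟨_, h4 | h4⟩
  · exact Or.inl h4
  · exact Or.inr (Or.inl ⟨h4, h5⟩)
  · exact Or.inr (Or.inr (Or.inl h4))
  · exact Or.inr (Or.inr (Or.inr h4))

omit [Nonempty V] in
theorem mem_three (hC : CombStm) (hU : Up3Stm)
    (h : IsOuterHam G ∨ (IsPathGraph G ∧ 2 ≤ Fintype.card V) ∨
      (Fintype.card V = 2 ∧ G = ⊥)) : Mem G 3 := by
  rcases h with h | ⟨h1, h2⟩ | ⟨h1, h2⟩
  · exact ⟨1, le_refl _, hU G h⟩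
  · exact ⟨2, by norm_num, join_join G 1 1 3 (hU _ (hC.2.1 G h1 h2))⟩
  · exact ⟨3, by norm_num, join_join G 2 1 3 (hU _ (hC.2.2 G h1 h2))⟩

theorem dJoin_mem : Mem G (dJoin G) ∧ dJoin G ≤ 5 := by
  have h5 : Mem G 5 := p_five G
  exact ⟨Nat.sInf_mem (s := {d | ∃ n ≥ 1, IsPolytopal d (joinComplete G n)}) ⟨5, h5⟩,
    Nat.sInf_le h5⟩

omit [Nonempty V] [Fintype V] in
theorem dJoin_le {d : ℕ} (h : Mem G d) : dJoin G ≤ d := Nat.sInf_le h

/-- the final theorem from the pieces -/
theorem assembly (hL : LinkStm) (hC : CombStm) (hU : Up3Stm) (hLow : LowStm) (h4 : FourStm) :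
    (dJoin G = 1 ↔ Fintype.card V = 1) ∧
    (dJoin G = 2 ↔ Fintype.card V = 2 ∧ G = ⊤) ∧
    (dJoin G = 3 ↔ (Fintype.card V = 2 ∧ G = ⊥) ∨ (3 ≤ Fintype.card V ∧ IsPathGraph G) ∨
      IsOuterHam G) ∧
    (Fintype.card V = 1 ∨ (Fintype.card V = 2 ∧ G = ⊤) ∨ (Fintype.card V = 2 ∧ G = ⊥) ∨
      (3 ≤ Fintype.card V ∧ IsPathGraph G) ∨ IsOuterHam G ∨ dJoin G = 4 ∨ dJoin G = 5) ∧
    (IsCoPseudoforest G → dJoin G ≤ 4) := by
  obtain ⟨hm, hle⟩ := dJoin_mem G
  have h0 := not_mem_zero G hLow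
  have h1 := mem_one G hLow
  have hd0 : dJoin G ≠ 0 := fun e => h0 (e ▸ hm)
  have e1 : dJoin G = 1 ↔ Fintype.card V = 1 := by
    constructor
    · intro e
      exact h1.1 (e ▸ hm)
    · intro h
      have := dJoin_le G (h1.2 h)
      omega
  have e2 : dJoin G = 2 ↔ Fintype.card V = 2 ∧ G = ⊤ := by
    constructor
    · intro e
      rcases of_mem_two G hLow (e ▸ hm) with h | h
      · have := e1.2 h
        omega
      · exact h
    · rintro ⟨h, hG⟩
      have h2 := dJoin_le G (mem_two G hLow h hG)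
      have h3 : dJoin G ≠ 1 := fun e => by
        have := e1.1 e
        omega
      omega
  have hcard2 : IsPathGraph G → Fintype.card V = 2 → G = ⊤ := by
    rintro ⟨N, e, he⟩ hc
    have hN : N = 2 := by
      have := Fintype.card_congr e
      rw [Fintype.card_fin] at this
      omega
    subst hN
    ext u v
    rw [he, SimpleGraph.top_adj]
    constructor
    · rintro (h | h) rfl <;> omega
    · intro huv
      have h1 : (e u).val ≠ (e v).val := fun h => huv (e.injective (Fin.ext h))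
      have := (e u).isLt
      have := (e v).isLt
      omega
  have hout : IsOuterHam G → 3 ≤ Fintype.card V := by
    rintro ⟨N, e, hN, _⟩
    have := Fintype.card_congr e
    rw [Fintype.card_fin] at this
    omega
  have htb : Fintype.card V = 2 → ¬ ((⊤ : SimpleGraph V) = ⊥) := by
    intro hc hG
    obtain ⟨u, v, huv⟩ := Fintype.exists_pair_of_one_lt_card (α := V) (by omega)
    have : (⊤ : SimpleGraph V).Adj u v := huv
    rw [hG] at this
    exact this
  have e3 : dJoin G = 3 ↔ (Fintype.card V = 2 ∧ G = ⊥) ∨ (3 ≤ Fintype.card V ∧ IsPathGraph G) ∨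
      IsOuterHam G := by
    constructor
    · intro e
      rcases of_mem_three G hL hC (e ▸ hm) with h | ⟨h, h'⟩ | h | h
      · exact Or.inr (Or.inr h)
      · rcases Nat.lt_or_ge (Fintype.card V) 3 with h3 | h3
        · have hc : Fintype.card V = 2 := by omega
          have := e2.2 ⟨hc, hcard2 h hc⟩
          omega
        · exact Or.inr (Or.inl ⟨h3, h⟩)
      · have := e1.2 h
        omega
      · exact Or.inl h
    · intro h
      have hle3 : dJoin G ≤ 3 := by
        apply dJoin_le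
        apply mem_three G hC hU
        rcases h with h | ⟨h, h'⟩ | h
        · exact Or.inr (Or.inr h)
        · exact Or.inr (Or.inl ⟨h', by omega⟩)
        · exact Or.inl h
      have n1 : dJoin G ≠ 1 := by
        intro e
        have h1' := e1.1 e
        rcases h with ⟨h, _⟩ | ⟨h, _⟩ | h
        · omega
        · omega
        · have := hout h
          omega
      have n2 : dJoin G ≠ 2 := by
        intro e
        obtain ⟨h2, hG⟩ := e2.1 e
        rcases h with ⟨_, h⟩ | ⟨h, _⟩ | h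
        · exact htb h2 (hG ▸ h)
        · omega
        · have := hout h
          omega
      omega
  refine ⟨e1, e2, e3, ?_, fun h => dJoin_le G (h4 G h)⟩
  by_cases c1 : Fintype.card V = 1
  · exact Or.inl c1
  by_cases c2 : Fintype.card V = 2 ∧ G = ⊤
  · exact Or.inr (Or.inl c2)
  by_cases c3 : (Fintype.card V = 2 ∧ G = ⊥) ∨ (3 ≤ Fintype.card V ∧ IsPathGraph G) ∨
      IsOuterHam G
  · rcases c3 with h | h | h
    · exact Or.inr (Or.inr (Or.inl h))
    · exact Or.inr (Or.inr (Or.inr (Or.inl h)))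
    · exact Or.inr (Or.inr (Or.inr (Or.inr (Or.inl h))))
  · have m1 : dJoin G ≠ 1 := fun e => c1 (e1.1 e)
    have m2 : dJoin G ≠ 2 := fun e => c2 (e2.1 e)
    have m3 : dJoin G ≠ 3 := fun e => c3 (e3.1 e)
    refine Or.inr (Or.inr (Or.inr (Or.inr (Or.inr ?_))))
    omega

end

end Pool.Agent.W4helper48.JN
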