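import Pool.Agent.W4helper48.JN.Pyr

/-!
# Pulling a vertex
-/

set_option autoImplicit false

namespace Pool.Agent.W4helper48.JN

/-- the new points -/
def pq {V : Type} {d : ℕ} (p : Option V → Fin d → ℝ) : V ⊕ Fin 2 → Fin (d + 1) → ℝ
  | Sum.inl v => ext1 (p (some v)) 1
  | Sum.inr i => if i = 0 then ext1 (fun k => 2 * p none k) 2 else ext1 0 0

theorem af_pq_inl {V : Type} {d : ℕ} (p : Option V → Fin d → ℝ) (v : V) (c0 s : ℝ)
    (c : Fin d → ℝ) : af c0 (ext1 c s) (pq p (Sum.inl v)) = c0 + af s c (p (some v)) := by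
  simp only [pq]
  rw [af_ext1]
  simp only [af]
  ring

theorem af_pq_w {V : Type} {d : ℕ} (p : Option V → Fin d → ℝ) (c0 s : ℝ)
    (c : Fin d → ℝ) : af c0 (ext1 c s) (pq p (Sum.inr 0)) = c0 + 2 * af s c (p none) := by
  simp only [pq, if_true]
  rw [af_ext1]
  simp only [af, mul_add, Finset.mul_sum]
  have : ∀ k, c k * (2 * p none k) = 2 * (c k * p none k) := fun k => by ring
  simp only [this]
  ring

theorem af_pq_o {V : Type} {d : ℕ} (p : Option V → Fin d → ℝ) (c0 s : ℝ)
    (c : Fin d → ℝ) : af c0 (ext1 c s) (pq p (Sum.inr 1)) = c0 := by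
  simp only [pq]
  rw [if_neg (by decide), af_ext1]
  simp [af]

theorem fin2 (i : Fin 2) : i = 0 ∨ i = 1 := by
  fin_cases i
  · exact Or.inl rfl
  · exact Or.inr rfl

theorem p_pull : PullStm := by
  intro hN V _ _ H d hH
  obtain ⟨p, hspan, hV, hE, hR⟩ := hN H d hH
  obtain ⟨v0⟩ := ‹Nonempty V›
  have : Nonempty (V ⊕ Fin 2) := ⟨Sum.inl v0⟩
  -- a function `-1 + A f`
  have hlin : ∀ (A c0 : ℝ) (c : Fin d → ℝ) (s : ℝ) (x : Fin d → ℝ),
      af (s + A * c0) (A • c) x = s + A * af c0 c x := by
    intro A c0 c s x
    simp only [af, Pi.smul_apply, smul_eq_mul, mul_add, Finset.mul_sum, mul_assoc]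
    ring
  refine polytopal_of _ (pq p) ?_ ?_ ?_ ?_
  · intro c0 c h
    rw [ext1_eta c] at h ⊢
    have h0 := h (Sum.inr 1)
    rw [af_pq_o] at h0
    subst h0
    have h1 : ∀ u, af (c (Fin.last d)) (fun k => c k.castSucc) (p u) = 0 := by
      rintro (_ | v)
      · have := h (Sum.inr 0)
        rw [af_pq_w] at this
        linarith
      · have := h (Sum.inl v)
        rw [af_pq_inl] at this
        linarith
    have h2 := hspan _ _ h1
    have h3 := h1 (some v0)
    rw [h2] at h3
    have h4 : c (Fin.last d) = 0 := by simpa [af] using h3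
    funext k
    refine Fin.lastCases ?_ (fun k => ?_) k
    · simp [ext1, h4]
    · simp only [ext1, Fin.snoc_castSucc]
      exact congrFun h2 k
  · rintro (v | i)
    · obtain ⟨c0, c, h0, h1⟩ := hV (some v)
      have hw := h1 none (by simp)
      refine ⟨1, ext1 ((af c0 c (p none))⁻¹ • c) (-1 + (af c0 c (p none))⁻¹ * c0), ?_, ?_⟩
      · rw [af_pq_inl, hlin, h0]; ring
      · rintro (u | j) hu
        · rw [af_pq_inl, hlin]
          have := h1 (some u) fun e => hu (by rw [Option.some_injective _ e])
          have : 0 < (af c0 c (p none))⁻¹ * af c0 c (p (some u)) := by positivity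
          linarith
        · rcases fin2 j with rfl | rfl
          · rw [af_pq_w, hlin, inv_mul_cancel₀ hw.ne']
            norm_num
          · rw [af_pq_o]
            norm_num
    · rcases fin2 i with rfl | rfl
      · obtain ⟨c0, c, h0, h1⟩ := hV none
        refine ⟨1, ext1 ((1 : ℝ) • c) (-1 / 2 + 1 * c0), ?_, ?_⟩
        · rw [af_pq_w, hlin, h0]; ring
        · rintro (u | j) hu
          · rw [af_pq_inl, hlin]
            have := h1 (some u) (by simp)
            linarith
          · rcases fin2 j with rfl | rfl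
            · exact absurd rfl hu
            · rw [af_pq_o]
              norm_num
      · refine ⟨0, ext1 0 1, af_pq_o _ _ _ _, ?_⟩
        rintro (u | j) hu
        · rw [af_pq_inl]
          simp [af]
        · rcases fin2 j with rfl | rfl
          · rw [af_pq_w]
            simp [af]
          · exact absurd rfl hu
  · -- edges
    have hvo : ∀ v, ∃ (c0 : ℝ) (c : Fin (d + 1) → ℝ), af c0 c (pq p (Sum.inl v)) ≤ 0 ∧
        af c0 c (pq p (Sum.inr 1)) ≤ 0 ∧
        ∀ w, w ≠ Sum.inl v → w ≠ Sum.inr 1 → 0 < af c0 c (pq p w) := by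
      intro v
      obtain ⟨c0, c, h0, h1⟩ := hV (some v)
      refine ⟨0, ext1 c c0, ?_, ?_, ?_⟩
      · rw [af_pq_inl, h0]; norm_num
      · rw [af_pq_o]
      · rintro (u | j) hu hj
        · rw [af_pq_inl]
          have := h1 (some u) fun e => hu (by rw [Option.some_injective _ e])
          linarith
        · rcases fin2 j with rfl | rfl
          · rw [af_pq_w]
            have := h1 none (by simp)
            linarith
          · exact absurd rfl hj
    have hvw : ∀ v, ∃ (c0 : ℝ) (c : Fin (d + 1) → ℝ), af c0 c (pq p (Sum.inl v)) ≤ 0 ∧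
        af c0 c (pq p (Sum.inr 0)) ≤ 0 ∧
        ∀ w, w ≠ Sum.inl v → w ≠ Sum.inr 0 → 0 < af c0 c (pq p w) := by
      intro v
      obtain ⟨c0, c, h0, h1⟩ := hV (some v)
      have hw := h1 none (by simp)
      refine ⟨1, ext1 ((2 * af c0 c (p none))⁻¹ • c) (-1 + (2 * af c0 c (p none))⁻¹ * c0),
        ?_, ?_, ?_⟩
      · rw [af_pq_inl, hlin, h0]; norm_num
      · rw [af_pq_w, hlin]
        have : (2 * af c0 c (p none))⁻¹ * af c0 c (p none) = 1 / 2 := by
          field_simp
        rw [this]; norm_num
      · rintro (u | j) hu hj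
        · rw [af_pq_inl, hlin]
          have := h1 (some u) fun e => hu (by rw [Option.some_injective _ e])
          have : 0 < (2 * af c0 c (p none))⁻¹ * af c0 c (p (some u)) := by positivity
          linarith
        · rcases fin2 j with rfl | rfl
          · exact absurd rfl hj
          · rw [af_pq_o]
            norm_num
    have hwo : ∃ (c0 : ℝ) (c : Fin (d + 1) → ℝ), af c0 c (pq p (Sum.inr 0)) ≤ 0 ∧
        af c0 c (pq p (Sum.inr 1)) ≤ 0 ∧
        ∀ w, w ≠ Sum.inr 0 → w ≠ Sum.inr 1 → 0 < af c0 c (pq p w) := by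
      obtain ⟨c0, c, h0, h1⟩ := hV none
      refine ⟨0, ext1 c c0, ?_, ?_, ?_⟩
      · rw [af_pq_w, h0]; norm_num
      · rw [af_pq_o]
      · rintro (u | j) hu hj
        · rw [af_pq_inl]
          have := h1 (some u) (by simp)
          linarith
        · rcases fin2 j with rfl | rfl
          · exact absurd rfl hu
          · exact absurd rfl hj
    have hswap : ∀ x y, (∃ (c0 : ℝ) (c : Fin (d + 1) → ℝ), af c0 c (pq p x) ≤ 0 ∧
        af c0 c (pq p y) ≤ 0 ∧ ∀ w, w ≠ x → w ≠ y → 0 < af c0 c (pq p w)) →
        ∃ (c0 : ℝ) (c : Fin (d + 1) → ℝ), af c0 c (pq p y) ≤ 0 ∧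
          af c0 c (pq p x) ≤ 0 ∧ ∀ w, w ≠ y → w ≠ x → 0 < af c0 c (pq p w) := by
      rintro x y ⟨c0, c, h1, h2, h3⟩
      exact ⟨c0, c, h2, h1, fun w hy hx => h3 w hx hy⟩
    rintro (v | i) (v' | j) hadj
    · have hvv : H.Adj (some v) (some v') := hadj.2 v v' rfl rfl
      obtain ⟨c0, c, h0, h0', h1⟩ := hE _ _ hvv
      have hw := h1 none (by simp) (by simp)
      refine ⟨1, ext1 ((af c0 c (p none))⁻¹ • c) (-1 + (af c0 c (p none))⁻¹ * c0), ?_, ?_, ?_⟩
      · rw [af_pq_inl, hlin, h0]; norm_num
      · rw [af_pq_inl, hlin, h0']; norm_num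
      · rintro (u | j) hu hu'
        · rw [af_pq_inl, hlin]
          have := h1 (some u) (fun e => hu (by rw [Option.some_injective _ e]))
            fun e => hu' (by rw [Option.some_injective _ e])
          have : 0 < (af c0 c (p none))⁻¹ * af c0 c (p (some u)) := by positivity
          linarith
        · rcases fin2 j with rfl | rfl
          · rw [af_pq_w, hlin, inv_mul_cancel₀ hw.ne']
            norm_num
          · rw [af_pq_o]
            norm_num
    · rcases fin2 j with rfl | rfl
      · exact hvw v
      · exact hvo v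
    · rcases fin2 i with rfl | rfl
      · exact hswap _ _ (hvw v')
      · exact hswap _ _ (hvo v')
    · rcases fin2 i with rfl | rfl <;> rcases fin2 j with rfl | rfl
      · exact absurd rfl hadj.1
      · exact hwo
      · exact hswap _ _ hwo
      · exact absurd rfl hadj.1
  · rintro (v | i) (v' | j) hne hadj
    · have huv : (some v : Option V) ≠ some v' := fun e => hne (by rw [Option.some_injective _ e])
      have h : ¬ H.Adj (some v) (some v') := by
        intro h
        refine hadj ⟨hne, fun a b ha hb => ?_⟩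
        rw [← Sum.inl.inj ha, ← Sum.inl.inj hb]
        exact h
      obtain ⟨a, b, c, w, h1, h2, h3, h4, h5, h6⟩ := hR _ _ huv h
      have hsum : ∀ f : V ⊕ Fin 2 → ℝ, ∑ x, (Sum.elim (fun x => c (some x)) (fun _ => c none / 2) :
          V ⊕ Fin 2 → ℝ) x * f x = ∑ x, c (some x) * f (Sum.inl x) +
            c none / 2 * f (Sum.inr 0) + c none / 2 * f (Sum.inr 1) := by
        intro f
        rw [Fintype.sum_sum_type, Fin.sum_univ_two]
        simp only [Sum.elim_inl, Sum.elim_inr]
        ring
      have hopt : ∀ f : Option V → ℝ, ∑ x, f x = f none + ∑ x, f (some x) := fun f =>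
        Fintype.sum_option f
      refine ⟨a, b, Sum.elim (fun x => c (some x)) (fun _ => c none / 2),
        w.elim (Sum.inr 0) Sum.inl, ?_, ?_, ?_, ?_, ?_, ?_⟩
      · rcases w with _ | w
        · simp
        · exact fun e => h1 (by rw [Sum.inl.inj e])
      · rcases w with _ | w
        · simp
        · exact fun e => h2 (by rw [Sum.inl.inj e])
      · rintro (x | x)
        · exact h3 _
        · exact div_nonneg (h3 _) (by norm_num)
      · rcases w with _ | w
        · change 0 < c none / 2
          positivity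
        · exact h4
      · have := hsum fun _ => 1
        simp only [mul_one] at this
        rw [this, ← h5, hopt]
        ring
      · intro k
        have h7 := hsum fun x => pq p x k
        rw [h7]
        refine Fin.lastCases ?_ (fun k => ?_) k
        · simp only [pq, ext1, if_true, Fin.snoc_last]
          rw [if_neg (by decide)]
          simp only [Fin.snoc_last]
          rw [hopt] at h5
          simp only [mul_one, mul_zero]
          linarith
        · simp only [pq, ext1, if_true, Fin.snoc_castSucc]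
          rw [if_neg (by decide)]
          simp only [Fin.snoc_castSucc, Pi.zero_apply]
          have := h6 k
          rw [hopt] at this
          rw [this]
          ring
    · rcases fin2 j with rfl | rfl
      · exact absurd ⟨hne, fun a b ha hb => by cases hb⟩ hadj
      · exact absurd ⟨hne, fun a b ha hb => by cases hb⟩ hadj
    · exact absurd ⟨hne, fun a b ha hb => by cases ha⟩ hadj
    · exact absurd ⟨hne, fun a b ha hb => by cases ha⟩ hadj

end Pool.Agent.W4helper48.JN
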