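import Pool.Agent.W4helper48.JN.Glue
import Pool.Agent.W4helper48.JN.Pull

/-!
# Assembly, second part
-/

set_option autoImplicit false

namespace Pool.Agent.W4helper48.JN

open Set

section

variable {V : Type} (G : SimpleGraph V)

theorem Mem.succ [Fintype V] (hN : NexStm) {d : ℕ} (h : Mem G d) : Mem G (d + 1) := by
  obtain ⟨n, hn, h⟩ := h
  have : Nonempty (V ⊕ Fin n) := ⟨Sum.inr ⟨0, hn⟩⟩
  exact ⟨n + 1, by omega, join_join G n 1 (d + 1) (p_pyr hN (joinComplete G n) d h)⟩

theorem Mem.mono [Fintype V] (hN : NexStm) {d d' : ℕ} (h : Mem G d) (hd : d ≤ d') :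
    Mem G d' := by
  induction hd with
  | refl => exact h
  | step _ ih => exact ih.succ G hN

/-- `G` has one vertex, or two vertices, or is a path, or is 2-connected outerplanar. -/
def IsSmall [Fintype V] : Prop :=
  Fintype.card V ≤ 2 ∨ IsPathGraph G ∨ IsOuterHam G

/-- `G` is the complement of a pseudoforest, or the graph of a 3-polytope, or obtained from the
graph of a 3-polytope by deleting a vertex. -/
def IsFourKind : Prop :=
  IsCoPseudoforest G ∨ IsPolytopal 3 G ∨
    ∃ H : SimpleGraph (Option V), IsPolytopal 3 H ∧ H.comap some = G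

theorem four_of_kind [Fintype V] [Nonempty V] (hN : NexStm) (h4 : FourStm) (h : IsFourKind G) :
    Mem G 4 := by
  rcases h with h | h | ⟨H, h, rfl⟩
  · exact h4 G h
  · exact ⟨1, le_refl _, p_pyr hN G 3 h⟩
  · exact ⟨2, by norm_num, p_pull hN H 3 h⟩

theorem assembly2 [Fintype V] [Nonempty V] (hL : LinkStm) (hC : CombStm) (hU : Up3Stm)
    (hLow : LowStm) (h4 : FourStm) (hN : NexStm) :
    (dJoin G = 1 ↔ Fintype.card V = 1) ∧
    (dJoin G = 2 ↔ Fintype.card V = 2 ∧ G = ⊤) ∧
    (dJoin G = 3 ↔ (Fintype.card V = 2 ∧ G = ⊥) ∨ (3 ≤ Fintype.card V ∧ IsPathGraph G) ∨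
      IsOuterHam G) ∧
    (¬ IsSmall G → dJoin G = 4 ∨ dJoin G = 5) ∧
    (¬ IsSmall G → IsFourKind G → dJoin G = 4) ∧
    (∀ d, (∃ n ≥ 1, IsPolytopal d (joinComplete G n)) ↔ dJoin G ≤ d) := by
  obtain ⟨h1, h2, h3, h45, -⟩ := assembly G hL hC hU hLow h4
  have key : ¬ IsSmall G → dJoin G = 4 ∨ dJoin G = 5 := by
    intro hs
    simp only [IsSmall, not_or] at hs
    obtain ⟨s1, s2, s3⟩ := hs
    rcases h45 with h | h | h | h | h | h | h
    · omega
    · exact absurd (by rw [h.1]) s1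
    · exact absurd (by rw [h.1]) s1
    · exact absurd h.2 s2
    · exact absurd h s3
    · exact Or.inl h
    · exact Or.inr h
  refine ⟨h1, h2, h3, key, fun hs hk => ?_, fun d => ⟨fun h => dJoin_le G h, fun h => ?_⟩⟩
  · have := dJoin_le G (four_of_kind G hN h4 hk)
    rcases key hs with h | h
    · exact h
    · omega
  · exact (dJoin_mem G).1.mono G hN h

end

end Pool.Agent.W4helper48.JN
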