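import Pool.Agent.W4helper48.JN.Stm2

/-!
# Pyramids
-/

set_option autoImplicit false

namespace Pool.Agent.W4helper48.JN

/-- extend a vector by a last coordinate -/
def ext1 {d : ℕ} (x : Fin d → ℝ) (t : ℝ) : Fin (d + 1) → ℝ := Fin.snoc (α := fun _ => ℝ) x t

theorem af_ext1 {d : ℕ} (c0 : ℝ) (c x : Fin d → ℝ) (s t : ℝ) :
    af c0 (ext1 c s) (ext1 x t) = af c0 c x + s * t := by
  simp only [af, ext1, Fin.sum_univ_castSucc, Fin.snoc_castSucc, Fin.snoc_last]
  ring

theorem ext1_eta {d : ℕ} (c : Fin (d + 1) → ℝ) :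
    c = ext1 (fun k => c k.castSucc) (c (Fin.last d)) := by
  funext k
  refine Fin.lastCases ?_ (fun k => ?_) k
  · simp [ext1]
  · simp [ext1]

theorem p_pyr : PyrStm := by
  intro hN U _ _ H d hH
  obtain ⟨p, hspan, hV, hE, hR⟩ := hN H d hH
  let q : U ⊕ Fin 1 → Fin (d + 1) → ℝ :=
    Sum.elim (fun u => ext1 (p u) 0) (fun _ => ext1 0 1)
  have q1 : ∀ u (c0 : ℝ) (c : Fin d → ℝ) (s : ℝ), af c0 (ext1 c s) (q (Sum.inl u)) =
      af c0 c (p u) := fun u c0 c s => by
    simp only [q, Sum.elim_inl]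
    rw [af_ext1, mul_zero, add_zero]
  have q2 : ∀ i (c0 : ℝ) (c : Fin d → ℝ) (s : ℝ), af c0 (ext1 c s) (q (Sum.inr i)) =
      c0 + s := fun i c0 c s => by
    simp only [q, Sum.elim_inr]
    rw [af_ext1, mul_one]
    simp [af]
  obtain ⟨u0⟩ := ‹Nonempty U›
  have : Nonempty (U ⊕ Fin 1) := ⟨Sum.inl u0⟩
  refine polytopal_of _ q ?_ ?_ ?_ ?_
  · intro c0 c h
    rw [ext1_eta c] at h ⊢
    have h1 := hspan c0 (fun k => c k.castSucc) fun u => by
      have := h (Sum.inl u)
      rwa [q1] at this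
    have h2 := h (Sum.inr 0)
    rw [q2] at h2
    have h3 := h (Sum.inl u0)
    rw [q1, h1] at h3
    have h4 : c0 = 0 := by simpa [af] using h3
    rw [h4, zero_add] at h2
    funext k
    refine Fin.lastCases ?_ (fun k => ?_) k
    · simp [ext1, h2]
    · simp only [ext1, Fin.snoc_castSucc]
      exact congrFun h1 k
  · rintro (u | i)
    · obtain ⟨c0, c, h0, h1⟩ := hV u
      refine ⟨c0, ext1 c (1 - c0), by rw [q1, h0], ?_⟩
      rintro (w | j) hw
      · rw [q1]
        exact h1 w fun e => hw (by rw [e])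
      · rw [q2]
        linarith
    · refine ⟨1, ext1 0 (-1), by rw [q2]; ring, ?_⟩
      rintro (w | j) hw
      · rw [q1]
        simp [af]
      · exact absurd (by rw [Subsingleton.elim j i]) hw
  · rintro (u | i) (v | j) hadj
    · have huv : H.Adj u v := hadj.2 u v rfl rfl
      obtain ⟨c0, c, h0, h1, h2⟩ := hE u v huv
      refine ⟨c0, ext1 c (1 - c0), by rw [q1, h0], by rw [q1, h1], ?_⟩
      rintro (w | j) hwu hwv
      · rw [q1]
        exact h2 w (fun e => hwu (by rw [e])) fun e => hwv (by rw [e])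
      · rw [q2]
        linarith
    · obtain ⟨c0, c, h0, h1⟩ := hV u
      refine ⟨c0, ext1 c (-c0), by rw [q1, h0], by rw [q2]; linarith, ?_⟩
      rintro (w | k) hwu hwv
      · rw [q1]
        exact h1 w fun e => hwu (by rw [e])
      · exact absurd (by rw [Subsingleton.elim k j]) hwv
    · obtain ⟨c0, c, h0, h1⟩ := hV v
      refine ⟨c0, ext1 c (-c0), by rw [q2]; linarith, by rw [q1, h0], ?_⟩
      rintro (w | k) hwu hwv
      · rw [q1]
        exact h1 w fun e => hwv (by rw [e])
      · exact absurd (by rw [Subsingleton.elim k i]) hwu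
    · exact absurd (by rw [Subsingleton.elim i j]) hadj.1
  · rintro (u | i) (v | j) hne hadj
    · have huv : u ≠ v := fun e => hne (by rw [e])
      have h : ¬ H.Adj u v := by
        intro h
        refine hadj ⟨hne, fun a b ha hb => ?_⟩
        rw [← Sum.inl.inj ha, ← Sum.inl.inj hb]
        exact h
      obtain ⟨a, b, c, w, h1, h2, h3, h4, h5, h6⟩ := hR u v huv h
      refine ⟨a, b, Sum.elim c 0, Sum.inl w, fun e => h1 (Sum.inl.inj e),
        fun e => h2 (Sum.inl.inj e), ?_, h4, ?_, fun k => ?_⟩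
      · rintro (x | x)
        · exact h3 x
        · exact le_refl _
      · simp [h5]
      · rw [Fintype.sum_sum_type]
        simp only [Sum.elim_inl, Sum.elim_inr, Pi.zero_apply, zero_mul, Finset.sum_const_zero,
          add_zero, q]
        refine Fin.lastCases ?_ (fun k => ?_) k
        · simp [ext1]
        · simp only [ext1, Fin.snoc_castSucc]
          exact h6 k
    · exact absurd ⟨hne, fun a b ha hb => by cases hb⟩ hadj
    · exact absurd ⟨hne, fun a b ha hb => by cases ha⟩ hadj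
    · exact absurd (by rw [Subsingleton.elim i j]) hne

end Pool.Agent.W4helper48.JN
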