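import Pool.Agent.W4helper48.JN.Geo

/-!
# Project JN (MP_2da123_co): statements of the pieces

Final theorem (helper48 assembles): for every graph `G` on a finite nonempty set `V`
* `d(G) ≤ 5`; and `d(G) ≤ 4` if the complement of `G` is a pseudoforest (`Out`);
* `d(G) = 1 ↔ |V| = 1`, `d(G) = 2 ↔ G = K_2`,
* `d(G) = 3 ↔ G = 2 K_1, or G is a path with at least 3 vertices, or IsOuterHam G`.

Use `polytopal_of` (Geo.lean) for all constructions.
-/

set_option autoImplicit false

namespace Pool.Agent.W4helper48.JN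

/-- PIECE LINK. In a 3-polytope with a vertex `w = none` that is adjacent to all others, the other
vertices have a cyclic order in which consecutive ones are adjacent and no two edges cross.
Proof: project centrally from `w` to a plane (separate `w` from the rest by a plane, `w` is
exposed). The images of the other vertices are in strictly convex position (each `[w, u]` is a
face), number them around the polygon. Two consecutive ones span with `w` a supporting plane that
contains no other vertex, so `[u, u']` is exposed. If two edges `[a, c]`, `[b, d]` of `P` have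
crossing images, a ray from `w` meets them in points `x`, `y`; if `x` is in `[w, y]` then, as
`[a, c]` is a face (extreme), `w ∈ [a, c]`, a contradiction. -/
def LinkStm : Prop := ∀ {W : Type} [Fintype W] (H : SimpleGraph (Option W)),
  (∀ u, H.Adj none (some u)) → IsPolytopal 3 H → IsOuterHam (H.comap some)

/-- PIECE COMB (combinatorics only). -/
def CombStm : Prop :=
  (∀ {V : Type} [Fintype V] [Nonempty V] (G : SimpleGraph V) (n : ℕ),
    IsOuterHam (joinComplete G n) → (n = 0 ∧ IsOuterHam G) ∨
      (n = 1 ∧ IsPathGraph G ∧ 2 ≤ Fintype.card V) ∨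
      (n = 2 ∧ (Fintype.card V = 1 ∨ (Fintype.card V = 2 ∧ G = ⊥)))) ∧
  (∀ {V : Type} [Fintype V] (G : SimpleGraph V), IsPathGraph G → 2 ≤ Fintype.card V →
    IsOuterHam (joinComplete G 1)) ∧
  (∀ {V : Type} [Fintype V] (G : SimpleGraph V), Fintype.card V = 2 → G = ⊥ →
    IsOuterHam (joinComplete G 2))

/-- PIECE UP3. If `H` is 2-connected outerplanar then `H + K_1` is 3-polytopal.
Proof: let `e : V ≃ Fin N` be the numbering, `h k = 1 + ∑ max 0 (-(k-i)(k-j)) > 0`, sum over the
chords (edges `{i,j}`, `i+1 < j`, `(i,j) ≠ (0,N-1)`). Place the cone vertex at the origin of `ℝ^3`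
and vertex `k` at `(h k)⁻¹ • (1, k, k^2)`. The affine function with constant `c0` and coefficients
`(α, β, γ)` has at vertex `k` the value `(h k)⁻¹ (c0 * h k + α + β k + γ k^2)` and `c0` at the cone
vertex, so (up to the positive factor) we have `c0 * h + (any quadratic polynomial)`.
* cone vertex: `1`; `{k, cone}`: `(x-k)^2`; vertex `k`: `h x - h k + A (x-k)^2`, `A` large.
* side `{i,i+1}`: `h - (linear interpolation) + A (x-i)(x-i-1)`, `A` large; side `{0,N-1}`:
  `h - (linear interpolation) + A x (N-1-x)`.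
* chord `{i,j}`: `h - 1 - ∑_{c ≠ (i,j), (i,j) inside c} -(x-c_1)(x-c_2) + 1/2 (x-i)(x-j) =
  1/2 |(x-i)(x-j)| + (nonnegative terms)`, where where (i,j) inside c=(c_1,c_2) means
  `c_1 ≤ i < j ≤ c_2`.
* nonedge `{i,j}`: there are `a, b`, one strictly between `i` and `j`, the other strictly
  outside, such that either `{a,b}` is an edge, or no chord has `i,j,a,b` not all on one closed
  side (`{i,j}` not crossed: `a`, `b` = the neighbours of `i` next to `j` on both sides). With
  positive `λ, μ, ν, ρ` such that `λ q(i) + μ q(j) = ν q(a) + ρ q(b)` for all quadratic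
  polynomials `q`: `λ h i p_i + μ h j p_j = ν h a p_a + ρ h b p_b + σ • 0`, with
  `σ = λ h i + μ h j - ν h a - ρ h b ≥ 0` (each term `max 0 (-(x-c_1)(x-c_2))` contributes `≥ 0`,
  because it is `≥ 0`, `≥` the quadratic polynomial, and equal to one of the two at both
  `a` and `b`). -/
def Up3Stm : Prop := ∀ {V : Type} [Fintype V] (H : SimpleGraph V),
  IsOuterHam H → IsPolytopal 3 (joinComplete H 1)

/-- PIECE LOW (dimensions 0, 1, 2 and simplices). -/
def LowStm : Prop :=
  (∀ {U : Type} (H : SimpleGraph U), IsPolytopal 0 H → Subsingleton U) ∧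
  (∀ {U : Type} [Fintype U] (H : SimpleGraph U), IsPolytopal 1 H → Fintype.card U = 2) ∧
  (∀ {U : Type} [Fintype U] (H : SimpleGraph U) (w : U), (∀ u, u ≠ w → H.Adj w u) →
    IsPolytopal 2 H → Fintype.card U = 3 ∧ H = ⊤) ∧
  (∀ {U : Type} [Fintype U] (d : ℕ), Fintype.card U = d + 1 → IsPolytopal d (⊤ : SimpleGraph U))

/-- The complement of `G` is a pseudoforest: its edges can be oriented with out-degrees at most
one. -/
def IsCoPseudoforest {V : Type} (G : SimpleGraph V) : Prop :=
  ∃ out : V → Option V, ∀ u v, u ≠ v → ¬ G.Adj u v → out u = some v ∨ out v = some u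

/-- PIECE FOUR. Proof: index set `A = Option V` (index `none` is spare), for `a ∈ A` take two
numbers `s_a = 2 i_a`, `t_a = 2 i_a + 1` (`i_a` distinct naturals), `z_a = s_a + 1/2`,
`M_a(x) = (x - s_a)(x - t_a)` (≥ 0 at all the numbers of the set `S = {s_a, t_a}`, zero only at
`s_a, t_a`). WLOG `out v = some u` implies `v ≠ u`, not adjacent; `u' v := (out v)` in `Option V`.
Vertices of the polytope: `x ∈ S` at `(x, x^2, x^3, x^4)`; `v ∈ V` at
`(1-ε)⁻¹ (1/2 (pt s_v + pt t_v) - ε pt z_(out v))`, i.e. the functional on polynomials `q` of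
degree ≤ 4: `(1-ε) L_v q = (q(s_v) + q(t_v))/2 - ε q(z_(out v))`, ε small. So `n = 2|V| + 2`.
* vertex `x ∈ S`: `q = (t-x)^2`; vertex `v`: `M_v + δ`, δ with `L_v = 0`.
* `x, y ∈ S`: `q = (t-x)^2 (t-y)^2` unless `{x,y} = {s_v,t_v}`, then `q = M_v (M_(out v) + η)`,
  η small: `L_v q = -ε M_v(z) (M_(out v)(z) + η) > 0`.
* `v`, `x ∈ S`: `q = M_v (t-x)^2 + δ (t-x)^2`, δ = small multiple of ε.
* `v, w ∈ V`, `out v ≠ w`, `out w ≠ v`: `q = M_v M_w + δ`.
* `out v = w`: `a L_v + b L_w = ∑ c_x (value at x)` over the five points `s_v,t_v,s_w,t_w,y`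
  (y any other point of S), by Lagrange interpolation; `c_y M_v(y) M_w(y) =
  (a L_v + b L_w)(M_v M_w) = ε (a |M_v(z_w) M_w(z_w)| - b M_v(z') M_w(z')) > 0` if `b/a` is small,
  the others are `a/2 + O(ε)`, `b/2 + O(ε)`. -/
def FourStm : Prop := ∀ {V : Type} [Fintype V] (G : SimpleGraph V), IsCoPseudoforest G →
  ∃ n ≥ 1, IsPolytopal 4 (joinComplete G n)

/-- PIECE FIVE (helper48). -/
def FiveStm : Prop := ∀ {V : Type} [Fintype V] (G : SimpleGraph V),
  ∃ n ≥ 1, IsPolytopal 5 (joinComplete G n)

end Pool.Agent.W4helper48.JN
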