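import Pool.Agent.W4helper48.JN.Stm

/-!
# Project JN (MP_2da123_co): second round of pieces
-/

set_option autoImplicit false

namespace Pool.Agent.W4helper48.JN

/-- PIECE NEX. Converse of `polytopal_of`: a polytopal graph has coordinates as in that theorem.
Use the lemmas of `Pool.Agent.W4helper65.JN.Low` (hull_eq, edge_fun); for the last clause: if
`[p u, p v]` is not exposed, then there is no linear functional `l` with `l (p v - p u) = 0` and
`l (p x - p u) > 0` for all other `x`; so (Gordan, i.e. separation of `0` from the convex hull of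
the finitely many images of `p x - p u` in `ℝ^d / ℝ (p v - p u)`, or of the compact convex hull
from the line) there are `c x ≥ 0`, not all zero, with `∑ c x (p x - p u) = t (p v - p u)`. If
there is no third vertex the segment is `P` itself, hence exposed. -/
def NexStm : Prop := ∀ {U : Type} [Fintype U] (H : SimpleGraph U) (d : ℕ), IsPolytopal d H →
  ∃ p : U → Fin d → ℝ,
    (∀ (c0 : ℝ) (c : Fin d → ℝ), (∀ u, af c0 c (p u) = 0) → c = 0) ∧
    (∀ u, ∃ (c0 : ℝ) (c : Fin d → ℝ), af c0 c (p u) = 0 ∧ ∀ w, w ≠ u → 0 < af c0 c (p w)) ∧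
    (∀ u v, H.Adj u v → ∃ (c0 : ℝ) (c : Fin d → ℝ), af c0 c (p u) = 0 ∧
      af c0 c (p v) = 0 ∧ ∀ w, w ≠ u → w ≠ v → 0 < af c0 c (p w)) ∧
    (∀ u v, u ≠ v → ¬ H.Adj u v → ∃ (a b : ℝ) (c : U → ℝ) (w : U), w ≠ u ∧ w ≠ v ∧
      (∀ x, 0 ≤ c x) ∧ 0 < c w ∧ ∑ x, c x = a + b ∧
      ∀ k, a * p u k + b * p v k = ∑ x, c x * p x k)

/-- PIECE PYR (from NEX as a hypothesis). Pyramids. With `p` from `NexStm` place `u` at
`(p u, 0)` and the apex at `(p u0, 1)` (or at `(0, 1)`), and use `polytopal_of`. -/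
def PyrStm : Prop := NexStm → ∀ {U : Type} [Fintype U] [Nonempty U] (H : SimpleGraph U) (d : ℕ),
  IsPolytopal d H → IsPolytopal (d + 1) (joinComplete H 1)

/-- PIECE PULL (from NEX as a hypothesis). If `H` is the graph of a `d`-polytope `P` and `w = none`
a vertex, then `(H - w) + K_2` is `(d+1)`-polytopal. Proof: with `p` from `NexStm`, `h v = 1` for
the vertices `v ≠ w`, `h w = 1/2`, place in `ℝ^(d+1)` the vertex `u` at `(h u)⁻¹ • (1, p u)` and a
new vertex `o` at the origin (the `K_2` is `{w, o}`). The affine function with constant `c0` and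
coefficients `(α, c)` has at `u` the value `(h u)⁻¹ (c0 * h u + α + ∑ c_k p u k)` and `c0` at `o`,
so up to positive factors we have `c0 * h + f` with any affine `f`. With `f_u` (vanishing at `u`,
positive elsewhere) and `f_uv` for edges:
* `o`: `1`; `v`: `h - 1 + A f_v`, `A` large; `w`: `h - 1/2 + A f_w`, `A` large;
* `{o, u}`: `f_u`; `{v, v'}` edge of `P`: `h - 1 + A f_vv'`, `A` large;
* `{v, w}`: `h - 1 + κ f_v` with `κ = 1 / (2 f_v(w))`;
* `{v, v'}` not an edge: `a p_v + b p_v' = ∑ c_u p_u` gives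
  `a q_v + b q_v' = ∑ c_u h_u q_u + (c_w / 2) • 0` for the new points `q`. -/
def PullStm : Prop := NexStm → ∀ {V : Type} [Fintype V] [Nonempty V] (H : SimpleGraph (Option V))
  (d : ℕ), IsPolytopal d H → IsPolytopal (d + 1) (joinComplete (H.comap some) 2)

end Pool.Agent.W4helper48.JN
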